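import Pool.Agent.D0H86.Flux.Homot
import Pool.Agent.GR.Flow

set_option autoImplicit false

open Set Filter Topology MeasureTheory
open scoped ContDiff

namespace Pool.Agent.D0H86.Flux

variable {E : Type} [NormedAddCommGroup E] [NormedSpace ℝ E]

/-- `H` generates the isotopy `φ` with inverse `φi` inside `N`. -/
structure HF (N : Set E) (Ω : E → E →L[ℝ] E →L[ℝ] ℝ) (H : ℝ → E → ℝ) (φ φi : ℝ → E → E) :
    Prop where
  sH : ContDiff ℝ ∞ (fun q : ℝ × E => H q.1 q.2)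
  sφ : ContDiff ℝ ∞ (fun q : ℝ × E => φ q.1 q.2)
  sφi : ContDiff ℝ ∞ (fun q : ℝ × E => φi q.1 q.2)
  left : ∀ t x, φi t (φ t x) = x
  right : ∀ t x, φ t (φi t x) = x
  zero : ∀ x, φ 0 x = x
  maps : ∀ t x, x ∈ N → φ t x ∈ N
  mapsi : ∀ t x, x ∈ N → φi t x ∈ N
  eqn : ∀ t, ∀ x ∈ N, ∀ v, Ω (φ t x) (deriv (fun s => φ s x) t) v = fderiv ℝ (H t) (φ t x) v

section helpers

variable {F : Type} [NormedAddCommGroup F] [NormedSpace ℝ F]

lemma fderiv_snd {f : ℝ → E → F} (hf : ContDiff ℝ ∞ (fun q : ℝ × E => f q.1 q.2)) (t : ℝ) (x u : E) :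
    fderiv ℝ (fun q : ℝ × E => f q.1 q.2) (t, x) (0, u) = fderiv ℝ (f t) x u := by
  have h1 : HasFDerivAt (fun q : ℝ × E => f q.1 q.2)
      (fderiv ℝ (fun q : ℝ × E => f q.1 q.2) (t, x)) (t, x) :=
    (hf.differentiable (by simp) _).hasFDerivAt
  have h2 : HasFDerivAt (fun y : E => (t, y)) (ContinuousLinearMap.inr ℝ ℝ E) x :=
    hasFDerivAt_prodMk_right t x
  have h3 : HasFDerivAt (f t) _ x := HasFDerivAt.comp (g := fun q : ℝ × E => f q.1 q.2) x h1 h2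
  rw [h3.fderiv]
  simp

lemma fderiv_fst {f : ℝ → E → F} (hf : ContDiff ℝ ∞ (fun q : ℝ × E => f q.1 q.2)) (t : ℝ) (x : E) :
    fderiv ℝ (fun q : ℝ × E => f q.1 q.2) (t, x) (1, 0) = deriv (fun s => f s x) t := by
  have h1 : HasFDerivAt (fun q : ℝ × E => f q.1 q.2)
      (fderiv ℝ (fun q : ℝ × E => f q.1 q.2) (t, x)) (t, x) :=
    (hf.differentiable (by simp) _).hasFDerivAt
  have h2 : HasDerivAt (fun s : ℝ => (s, x)) ((1 : ℝ), (0 : E)) t :=
    (hasDerivAt_id t).prodMk (hasDerivAt_const t x)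
  have h3 : HasDerivAt (fun s => f s x) _ t :=
    HasFDerivAt.comp_hasDerivAt (l := fun q : ℝ × E => f q.1 q.2) t h1 h2
  exact h3.deriv.symm

lemma smooth_slice {f : ℝ → E → F} (hf : ContDiff ℝ ∞ (fun q : ℝ × E => f q.1 q.2)) (t : ℝ) :
    ContDiff ℝ ∞ (f t) := by
  have : ContDiff ℝ ∞ (fun y : E => (t, y)) := contDiff_const.prodMk contDiff_id
  exact hf.comp this

lemma smooth_slice' {f : ℝ → E → F} (hf : ContDiff ℝ ∞ (fun q : ℝ × E => f q.1 q.2)) (x : E) :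
    ContDiff ℝ ∞ (fun t => f t x) := by
  have : ContDiff ℝ ∞ (fun t : ℝ => (t, x)) := contDiff_id.prodMk contDiff_const
  exact hf.comp this

/-- the chain rule for `s ↦ f s (γ s)` -/
lemma deriv_comp2 {f : ℝ → E → F} (hf : ContDiff ℝ ∞ (fun q : ℝ × E => f q.1 q.2)) {γ : ℝ → E}
    {γ' : E} {t : ℝ} (hγ : HasDerivAt γ γ' t) :
    HasDerivAt (fun s => f s (γ s)) (deriv (fun s => f s (γ t)) t + fderiv ℝ (f t) (γ t) γ') t := by
  have h1 : HasFDerivAt (fun q : ℝ × E => f q.1 q.2)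
      (fderiv ℝ (fun q : ℝ × E => f q.1 q.2) (t, γ t)) (t, γ t) :=
    (hf.differentiable (by simp) _).hasFDerivAt
  have h2 : HasDerivAt (fun s : ℝ => (s, γ s)) ((1 : ℝ), γ') t := (hasDerivAt_id t).prodMk hγ
  have h3 : HasDerivAt (fun s => f s (γ s)) _ t :=
    HasFDerivAt.comp_hasDerivAt (l := fun q : ℝ × E => f q.1 q.2) t h1 h2
  have e : ((1 : ℝ), γ') = (1, 0) + (0, γ') := by simp
  rw [e, map_add, fderiv_fst hf, fderiv_snd hf] at h3
  exact h3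

end helpers

variable {N : Set E} {Ω : E → E →L[ℝ] E →L[ℝ] ℝ}

theorem HF.pres (hN : IsOpen N) (hw : ContDiff ℝ ∞ Ω) (halt : ∀ x u v, Ω x u v = - Ω x v u)
    (hcl : ∀ x ∈ N, ∀ u v w, fderiv ℝ Ω x u v w + fderiv ℝ Ω x v w u + fderiv ℝ Ω x w u v = 0)
    {H : ℝ → E → ℝ} {φ φi : ℝ → E → E} (h : HF N Ω H φ φi) (t : ℝ) {x : E} (hx : x ∈ N) (u v : E) :
    Ω (φ t x) (fderiv ℝ (φ t) x u) (fderiv ℝ (φ t) x v) = Ω x u v := by
  set U : ℝ × E → E := fun q => φ q.1 q.2 with hUd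
  have hU : ContDiff ℝ ∞ U := h.sφ
  set k : ℝ × E → ℝ := fun q => H q.1 (U q) with hkd
  have hk : ContDiff ℝ ∞ k := h.sH.comp (contDiff_fst.prodMk hU)
  have e1 : ∀ q : ℝ × E, q.2 ∈ N → ∀ u, pb Ω U (1, 0) (0, u) q = fderiv ℝ k q (0, u) := by
    rintro ⟨s, y⟩ hy u
    have a1 : fderiv ℝ U (s, y) (1, 0) = deriv (fun r => φ r y) s := fderiv_fst h.sφ s y
    have a2 : HasFDerivAt k ((fderiv ℝ (fun q : ℝ × E => H q.1 q.2) (s, U (s, y))).comp
        ((ContinuousLinearMap.fst ℝ ℝ E).prod (fderiv ℝ U (s, y)))) (s, y) := by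
      have b1 : HasFDerivAt (fun q : ℝ × E => H q.1 q.2)
          (fderiv ℝ (fun q : ℝ × E => H q.1 q.2) (s, U (s, y))) (s, U (s, y)) :=
        (h.sH.differentiable (by simp) _).hasFDerivAt
      have b2 : HasFDerivAt (fun q : ℝ × E => (q.1, U q))
          ((ContinuousLinearMap.fst ℝ ℝ E).prod (fderiv ℝ U (s, y))) (s, y) :=
        hasFDerivAt_fst.prodMk (hU.differentiable (by simp) _).hasFDerivAt
      exact HasFDerivAt.comp (g := fun q : ℝ × E => H q.1 q.2) (s, y) b1 b2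
    have a3 : fderiv ℝ k (s, y) (0, u) = fderiv ℝ (H s) (φ s y) (fderiv ℝ U (s, y) (0, u)) := by
      rw [a2.fderiv, ← fderiv_snd h.sH]
      simp [hUd]
    rw [a3, ← h.eqn s y hy, ← a1]
    rfl
  have hN' : ∀ q : ℝ × E, q.2 ∈ N → ∀ᶠ q' in 𝓝 q, q'.2 ∈ N := fun q hq =>
    (hN.preimage continuous_snd).mem_nhds hq
  have e2 : ∀ s, deriv (fun s => pb Ω U (0, u) (0, v) (s, x)) s = 0 := by
    intro s
    have c := cyc (Ω := Ω) (U := U) (p := (s, x)) (hU.contDiffAt.of_le (by norm_cast))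
      (hw.differentiable (by simp) _) (halt _) (hcl _ (h.maps s x hx)) (1, 0) (0, u) (0, v)
    have hk2 : ContDiffAt ℝ 2 k (s, x) := hk.contDiffAt.of_le (by norm_cast)
    have c1 : fderiv ℝ (pb Ω U (1, 0) (0, u)) (s, x) (0, v) =
        fderiv ℝ (fderiv ℝ k) (s, x) (0, v) (0, u) := by
      have : pb Ω U (1, 0) (0, u) =ᶠ[𝓝 (s, x)] fun q => fderiv ℝ k q (0, u) := by
        filter_upwards [hN' (s, x) hx] with q hq using e1 q hq u
      rw [this.fderiv_eq, (hasFDerivAt_fderiv_apply hk2 _).fderiv]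
      rfl
    have c2 : fderiv ℝ (pb Ω U (0, v) (1, 0)) (s, x) (0, u) =
        - fderiv ℝ (fderiv ℝ k) (s, x) (0, u) (0, v) := by
      have : pb Ω U (0, v) (1, 0) =ᶠ[𝓝 (s, x)] fun q => - fderiv ℝ k q (0, v) := by
        filter_upwards [hN' (s, x) hx] with q hq
        rw [← e1 q hq v]
        exact halt _ _ _
      rw [this.fderiv_eq, (hasFDerivAt_fderiv_apply hk2 _).fun_neg.fderiv]
      rfl
    have c3 : fderiv ℝ (fderiv ℝ k) (s, x) (0, v) (0, u) =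
        fderiv ℝ (fderiv ℝ k) (s, x) (0, u) (0, v) :=
      (hk2.isSymmSndFDerivAt (by simp)) _ _
    have hpb : ContDiff ℝ ∞ (pb Ω U (0, u) (0, v)) := contDiff_pb hw hU _ _
    have c4 : fderiv ℝ (pb Ω U (0, u) (0, v)) (s, x) (1, 0) =
        deriv (fun s => pb Ω U (0, u) (0, v) (s, x)) s :=
      fderiv_fst (f := fun s x => pb Ω U (0, u) (0, v) (s, x)) hpb s x
    rw [← c4]
    linarith
  have hd : Differentiable ℝ (fun s => pb Ω U (0, u) (0, v) (s, x)) := by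
    have hpb : ContDiff ℝ ∞ (pb Ω U (0, u) (0, v)) := contDiff_pb hw hU _ _
    exact (hpb.comp (contDiff_id.prodMk contDiff_const)).differentiable (by simp)
  have e3 := is_const_of_deriv_eq_zero hd e2 t 0
  have f1 : ∀ s w, fderiv ℝ U (s, x) (0, w) = fderiv ℝ (φ s) x w := fun s w =>
    fderiv_snd h.sφ s x w
  have f2 : φ 0 = id := funext h.zero
  simp only [pb, f1, f2, fderiv_id] at e3
  simpa [hUd, h.zero] using e3

end Pool.Agent.D0H86.Flux
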