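import Pool.Agent.D0H86.Flux.Final

set_option autoImplicit false
set_option maxSynthPendingDepth 3

open Set Filter Topology MeasureTheory
open scoped ContDiff

namespace Pool.Agent.D0H86.Flux

/-- the outer region -/
def AA : Set V := {p | 1 < rr p}

lemma isPreconnected_AA : IsPreconnected AA := by
  set f : ℝ × ℝ × ℝ × ℝ → V := fun q =>
    (q.1 * Real.cos q.2.1, q.1 * Real.sin q.2.1, q.2.2.1, q.2.2.2) with hf
  have hfc : Continuous f := by rw [hf]; fun_prop
  have h1 : AA = f '' (Ioi (1:ℝ) ×ˢ univ) := by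
    ext p
    constructor
    · intro hp
      have hp' : 1 < p.1 ^ 2 + p.2.1 ^ 2 := hp
      set z : ℂ := ⟨p.1, p.2.1⟩ with hz
      have hn : 1 < ‖z‖ := by
        rw [Complex.norm_def, Complex.normSq_apply]
        rw [Real.lt_sqrt (by norm_num)]
        simp only [hz]
        nlinarith
      refine ⟨(‖z‖, z.arg, p.2.2.1, p.2.2.2), ⟨hn, trivial⟩, ?_⟩
      simp only [hf, Complex.norm_mul_cos_arg, Complex.norm_mul_sin_arg]
      rfl
    · rintro ⟨q, ⟨hq, -⟩, rfl⟩
      have hq' : 1 < q.1 := hq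
      show 1 < (q.1 * Real.cos q.2.1) ^ 2 + (q.1 * Real.sin q.2.1) ^ 2
      have := Real.sin_sq_add_cos_sq q.2.1
      have e : (q.1 * Real.cos q.2.1) ^ 2 + (q.1 * Real.sin q.2.1) ^ 2 =
        q.1 ^ 2 * (Real.sin q.2.1 ^ 2 + Real.cos q.2.1 ^ 2) := by ring
      rw [e, this]
      nlinarith
  rw [h1]
  exact ((isPreconnected_Ioi).prod isPreconnected_univ).image _ hfc.continuousOn

theorem isConnected_MM : IsConnected MM := by
  have hAM : AA ⊆ MM := by
    intro p hp
    refine ⟨Or.inl hp, ?_⟩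
    rintro rfl
    have : 1 < rr p1 := hp
    simp [rr, p1] at this
    norm_num at this
  have hb : ((2, 0, 0, 0) : V) ∈ AA := by
    show (1:ℝ) < 2 ^ 2 + 0 ^ 2
    norm_num
  refine ⟨⟨_, hAM hb⟩, ?_⟩
  apply isPreconnected_of_forall ((2, 0, 0, 0) : V)
  intro p hp
  by_cases hpA : p ∈ AA
  · exact ⟨AA, hAM, hb, hpA, isPreconnected_AA⟩
  · have hg : gap p.2.2.1 := by
      rcases hp.1 with h | h
      · exact absurd h hpA
      · exact h
    obtain ⟨e, he1, he2⟩ : ∃ e : ℝ, (e = 1 ∨ e = -1) ∧ 0 ≤ e * p.1 := by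
      rcases le_total 0 p.1 with h | h
      · exact ⟨1, Or.inl rfl, by linarith⟩
      · exact ⟨-1, Or.inr rfl, by linarith⟩
    have he3 : e ^ 2 = 1 := by rcases he1 with h | h <;> rw [h] <;> norm_num
    set g : ℝ → V := fun t => (p.1 + e * t, p.2.1, p.2.2.1, p.2.2.2) with hgd
    have hgc : Continuous g := by rw [hgd]; fun_prop
    set T : Set V := g '' Icc (0:ℝ) 3 with hT
    have hTp : IsPreconnected T := isPreconnected_Icc.image _ hgc.continuousOn
    have hTM : T ⊆ MM := by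
      rintro _ ⟨t, ht, rfl⟩
      refine ⟨Or.inr hg, ?_⟩
      intro heq
      have heq' : g t = p1 := heq
      have e1 : p.1 + e * t = 0 := congrArg (fun p : V => p.1) heq'
      have e2 : p.2 = (0, -1, 0) := congrArg (fun p : V => p.2) heq'
      have ht0 : 0 ≤ t := ht.1
      have e3 : e * p.1 + t = 0 := by
        have : e * (p.1 + e * t) = 0 := by rw [e1, mul_zero]
        nlinarith
      have e4 : t = 0 := by linarith
      rw [e4, mul_zero, add_zero] at e1
      apply hp.2
      show p = p1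
      exact Prod.ext e1 e2
    have hTA : g 3 ∈ AA := by
      show 1 < (p.1 + e * 3) ^ 2 + p.2.1 ^ 2
      nlinarith [sq_nonneg p.1, sq_nonneg p.2.1]
    refine ⟨AA ∪ T, union_subset hAM hTM, Or.inl hb, Or.inr ⟨0, by simp, by simp [hgd]⟩, ?_⟩
    exact IsPreconnected.union (g 3) hTA ⟨3, by simp, rfl⟩ isPreconnected_AA hTp

end Pool.Agent.D0H86.Flux
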