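import Pool.Agent.D0H86.Flux.Gmap

set_option autoImplicit false
set_option maxSynthPendingDepth 3

open Set Filter Topology MeasureTheory
open scoped ContDiff

namespace Pool.Agent.D0H86.Flux

/-- the area swept out by a path under a Hamiltonian isotopy -/
theorem area_ham {H : ℝ → V → ℝ} {φ : ℝ → V → V}
    (sφ : ContDiff ℝ ∞ (fun q : ℝ × V => φ q.1 q.2)) (sH : ContDiff ℝ ∞ (fun q : ℝ × V => H q.1 q.2))
    {l : ℝ → V} (sl : ContDiff ℝ ∞ l)
    (heq : ∀ s ∈ Icc (0:ℝ) 1, ∀ t v,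
      Om (φ t (l s)) (deriv (fun r => φ r (l s)) t) v = fderiv ℝ (H t) (φ t (l s)) v) :
    area Om (fun p : ℝ × ℝ => φ p.2 (l p.1)) =
      - ∫ t in (0:ℝ)..1, (H t (φ t (l 1)) - H t (φ t (l 0))) := by
  set F : ℝ × ℝ → V := fun p => φ p.2 (l p.1) with hF
  have sF : ContDiff ℝ ∞ F := sφ.comp (contDiff_snd.prodMk (sl.comp contDiff_fst))
  set h : ℝ × ℝ → ℝ := fun p => H p.2 (F p) with hh
  have sh : ContDiff ℝ ∞ h := sH.comp (contDiff_snd.prodMk sF)
  have e1 : ∀ s ∈ Icc (0:ℝ) 1, ∀ t, pb Om F (1, 0) (0, 1) (s, t) = - fderiv ℝ h (s, t) (1, 0) := by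
    intro s hs t
    have a1 : fderiv ℝ F (s, t) (0, 1) = deriv (fun r => φ r (l s)) t := by
      have b1 : HasFDerivAt F (fderiv ℝ F (s, t)) (s, t) :=
        (sF.differentiable (by simp) _).hasFDerivAt
      have b2 : HasDerivAt (fun r : ℝ => (s, r)) ((0 : ℝ), (1 : ℝ)) t :=
        (hasDerivAt_const t s).prodMk (hasDerivAt_id t)
      have b3 : HasDerivAt (fun r => φ r (l s)) (fderiv ℝ F (s, t) (0, 1)) t :=
        HasFDerivAt.comp_hasDerivAt (l := F) t b1 b2
      exact b3.deriv.symm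
    have a2 : fderiv ℝ h (s, t) (1, 0) = fderiv ℝ (H t) (F (s, t)) (fderiv ℝ F (s, t) (1, 0)) := by
      have b1 : HasFDerivAt (fun q : ℝ × V => H q.1 q.2)
          (fderiv ℝ (fun q : ℝ × V => H q.1 q.2) (t, F (s, t))) (t, F (s, t)) :=
        (sH.differentiable (by simp) _).hasFDerivAt
      have b2 : HasFDerivAt (fun q : ℝ × ℝ => (q.2, F q))
          ((ContinuousLinearMap.snd ℝ ℝ ℝ).prod (fderiv ℝ F (s, t))) (s, t) :=
        hasFDerivAt_snd.prodMk (sF.differentiable (by simp) _).hasFDerivAt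
      have b3 : HasFDerivAt h _ (s, t) :=
        HasFDerivAt.comp (g := fun q : ℝ × V => H q.1 q.2) (s, t) b1 b2
      rw [b3.fderiv, ← fderiv_snd sH]
      simp
    rw [a2, pb, a1, Om_alt, heq s hs t]
  have sdh : Continuous (fun p : ℝ × ℝ => fderiv ℝ h p (1, 0)) :=
    (sh.continuous_fderiv (by simp)).clm_apply continuous_const
  have e2 : area Om F = ∫ s in (0:ℝ)..1, ∫ t in (0:ℝ)..1, - fderiv ℝ h (s, t) (1, 0) := by
    unfold area
    apply int_congr
    intro s hs
    apply int_congr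
    intro t _
    exact e1 s hs t
  rw [e2, swap01 (f := fun s t => - fderiv ℝ h (s, t) (1, 0)) sdh.neg,
    ← intervalIntegral.integral_neg]
  apply int_congr
  intro t _
  rw [intervalIntegral.integral_neg]
  congr 1
  have e3 := ftc sh ((0, t) : ℝ × ℝ) (1, 0)
  simp only [Prod.smul_mk, smul_eq_mul, mul_one, mul_zero, Prod.mk_add_mk, zero_add,
      add_zero] at e3
  rw [e3]

lemma area_Om {F : ℝ × ℝ → V} (sF : ContDiff ℝ ∞ F) :
    area Om F = area (fun _ => Om0) F + area Om1 F := by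
  have c0 : Continuous (pb (fun _ => Om0) F (1, 0) (0, 1)) :=
    (contDiff_pb contDiff_const sF _ _).continuous
  have c1 : Continuous (pb Om1 F (1, 0) (0, 1)) := (contDiff_pb contDiff_Om1 sF _ _).continuous
  have sl : ∀ {f : ℝ × ℝ → ℝ} (s : ℝ), Continuous f → Continuous (fun t => f (s, t)) :=
    fun s hf => hf.comp (by fun_prop : Continuous (fun t : ℝ => (s, t)))
  unfold area
  rw [← intervalIntegral.integral_add]
  · apply int_congr
    intro s _
    rw [← intervalIntegral.integral_add ((sl s c0).intervalIntegrable _ _)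
      ((sl s c1).intervalIntegrable _ _)]
    apply int_congr
    intro t _
    rfl
  · exact (cont_int (f := fun s t => pb (fun _ => Om0) F (1, 0) (0, 1) (s, t)) c0).intervalIntegrable _ _
  · exact (cont_int (f := fun s t => pb Om1 F (1, 0) (0, 1) (s, t)) c1).intervalIntegrable _ _

/-- the half space below all tubes -/
def UU : Set V := {p | p.2.2.1 < 0}

lemma isOpen_UU : IsOpen UU := isOpen_lt (by fun_prop) continuous_const

lemma UU_sub : UU ⊆ NN := fun _ hp => Or.inr (Or.inl hp)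

lemma Om1_UU {p : V} (hp : p ∈ UU) : Om1 p = 0 := by
  have h : kk p.2.2.1 = 0 := kk_gap (Or.inl hp)
  simp [Om1, aa, bb, h]

/-- the family of maps with prescribed areas is countable -/
theorem countable_of_area {S : Set ℝ} (hS : ∀ c ∈ S, ∃ F : ℝ × ℝ → V, ContDiff ℝ ∞ F ∧
    (∀ s ∈ Icc (0:ℝ) 1, ∀ t ∈ Icc (0:ℝ) 1, F (s, t) ∈ NN) ∧
    (∀ s ∈ Icc (0:ℝ) 1, ∀ t ∈ Icc (0:ℝ) 1, (s = 0 ∨ s = 1 ∨ t = 0 ∨ t = 1) → F (s, t) ∈ UU) ∧
    area Om1 F = c) : S.Countable := by
  classical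
  set Q : Set (ℝ × ℝ) := Icc (0:ℝ) 1 ×ˢ Icc (0:ℝ) 1 with hQ
  have hQc : IsCompact Q := isCompact_Icc.prod isCompact_Icc
  have : CompactSpace Q := isCompact_iff_compactSpace.1 hQc
  set dQ : Set (ℝ × ℝ) := Q ∩ {p | p.1 = 0 ∨ p.1 = 1 ∨ p.2 = 0 ∨ p.2 = 1} with hdQ
  have hdQc : IsCompact dQ := by
    apply hQc.inter_right
    have a1 : IsClosed {p : ℝ × ℝ | p.1 = 0} := isClosed_eq (by fun_prop) (by fun_prop)
    have a2 : IsClosed {p : ℝ × ℝ | p.1 = 1} := isClosed_eq (by fun_prop) (by fun_prop)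
    have a3 : IsClosed {p : ℝ × ℝ | p.2 = 0} := isClosed_eq (by fun_prop) (by fun_prop)
    have a4 : IsClosed {p : ℝ × ℝ | p.2 = 1} := isClosed_eq (by fun_prop) (by fun_prop)
    exact a1.union (a2.union (a3.union a4))
  choose! F sF hF1 hF2 hF3 using hS
  have hex : ∀ c ∈ S, ∃ ε > 0, ∀ c' ∈ S, (∀ p ∈ Q, dist (F c' p) (F c p) < ε) → c' = c := by
    intro c hc
    have k1 : IsCompact (F c '' Q) := hQc.image (sF c hc).continuous
    have k2 : IsCompact (F c '' dQ) := hdQc.image (sF c hc).continuous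
    have s1 : F c '' Q ⊆ NN := by
      rintro _ ⟨⟨s, t⟩, ⟨hs, ht⟩, rfl⟩
      exact hF1 c hc s hs t ht
    have s2 : F c '' dQ ⊆ UU := by
      rintro _ ⟨⟨s, t⟩, ⟨⟨hs, ht⟩, h⟩, rfl⟩
      exact hF2 c hc s hs t ht h
    obtain ⟨ε1, hε1, t1⟩ := k1.exists_thickening_subset_open isOpen_NN s1
    obtain ⟨ε2, hε2, t2⟩ := k2.exists_thickening_subset_open isOpen_UU s2
    refine ⟨min ε1 ε2, lt_min hε1 hε2, ?_⟩
    intro c' hc' hd
    have hline : ∀ r ∈ Icc (0:ℝ) 1, ∀ p ∈ Q, dist (line (F c) (F c') (r, p)) (F c p) < min ε1 ε2 := by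
      intro r hr p hp
      have e : line (F c) (F c') (r, p) - F c p = r • (F c' p - F c p) := by
        simp [line]
      rw [dist_eq_norm, e, norm_smul]
      have h1 := hd p hp
      rw [dist_eq_norm] at h1
      have h2 : ‖r‖ ≤ 1 := by
        rw [Real.norm_eq_abs, abs_le]; constructor <;> linarith [hr.1, hr.2]
      have h3 := norm_nonneg (F c' p - F c p)
      nlinarith
    have key := area_eq_of_line (Ω := Om1) (N := NN) contDiff_Om1 Om1_alt
      (fun x hx => Om1_closed hx) (sF c hc) (sF c' hc') ?_ ?_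
    · rw [hF3 c hc, hF3 c' hc'] at key
      exact key
    · intro r hr s hs t ht
      apply t1
      rw [Metric.mem_thickening_iff]
      exact ⟨F c (s, t), ⟨(s, t), ⟨hs, ht⟩, rfl⟩, (hline r hr (s, t) ⟨hs, ht⟩).trans_le (min_le_left _ _)⟩
    · intro r hr s hs t ht hb v
      have hU : line (F c) (F c') (r, (s, t)) ∈ UU := by
        apply t2
        rw [Metric.mem_thickening_iff]
        exact ⟨F c (s, t), ⟨(s, t), ⟨⟨hs, ht⟩, hb⟩, rfl⟩,
          (hline r hr (s, t) ⟨hs, ht⟩).trans_le (min_le_right _ _)⟩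
      rw [Om1_UU hU]
      simp
  choose! ε hε hε2 using hex
  set j : ℝ → C(Q, V) := fun c => if h : c ∈ S then
    ⟨fun p => F c p.1, (sF c h).continuous.comp continuous_subtype_val⟩ else 0 with hj
  have hj' : ∀ c ∈ S, ∀ p : Q, j c p = F c p.1 := by
    intro c hc p
    simp [hj, hc]
  apply Set.PairwiseDisjoint.countable_of_isOpen (s := fun c => Metric.ball (j c) (ε c / 2))
  · intro c hc c' hc' hne
    rw [Function.onFun, Set.disjoint_left]
    intro y hy hy'
    apply hne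
    rw [Metric.mem_ball] at hy hy'
    have hd : dist (j c) (j c') < (ε c + ε c') / 2 := by
      have := dist_triangle_left (j c) (j c') y
      linarith
    rcases le_total (ε c) (ε c') with h | h
    · apply hε2 c' hc' c hc
      intro p hp
      have h1 := ContinuousMap.dist_apply_le_dist (f := j c) (g := j c') ⟨p, hp⟩
      rw [hj' c hc, hj' c' hc'] at h1
      simp only at h1
      linarith
    · symm
      apply hε2 c hc c' hc'
      intro p hp
      have h1 := ContinuousMap.dist_apply_le_dist (f := j c) (g := j c') ⟨p, hp⟩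
      rw [hj' c hc, hj' c' hc', dist_comm] at h1
      simp only at h1
      linarith
  · intro c _
    exact Metric.isOpen_ball
  · intro c hc
    exact ⟨j c, Metric.mem_ball_self (by linarith [hε c hc])⟩

end Pool.Agent.D0H86.Flux
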