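import Pool.Agent.D0H86.Flux.Defs

set_option autoImplicit false

open Set Filter Topology
open scoped ContDiff

namespace Pool.Agent.D0H86.Flux

variable {E : Type} [NormedAddCommGroup E] [NormedSpace ℝ E]
variable {P : Type} [NormedAddCommGroup P] [NormedSpace ℝ P]

/-- the pulled back form evaluated on constant directions -/
noncomputable def pb (Ω : E → E →L[ℝ] E →L[ℝ] ℝ) (U : P → E) (b c : P) (p : P) : ℝ :=
  Ω (U p) (fderiv ℝ U p b) (fderiv ℝ U p c)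

lemma hasFDerivAt_fderiv_apply {U : P → E} {p : P} (hU : ContDiffAt ℝ 2 U p) (b : P) :
    HasFDerivAt (fun q => fderiv ℝ U q b)
      ((ContinuousLinearMap.apply ℝ E b).comp (fderiv ℝ (fderiv ℝ U) p)) p := by
  have h1 : DifferentiableAt ℝ (fderiv ℝ U) p :=
    (hU.fderiv_right (m := 1) (by norm_num)).differentiableAt (by norm_num)
  exact (ContinuousLinearMap.apply ℝ E b).hasFDerivAt.comp p h1.hasFDerivAt

lemma fderiv_pb {Ω : E → E →L[ℝ] E →L[ℝ] ℝ} {U : P → E} {p : P} (hU : ContDiffAt ℝ 2 U p)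
    (hw : DifferentiableAt ℝ Ω (U p)) (a b c : P) :
    fderiv ℝ (pb Ω U b c) p a =
      fderiv ℝ Ω (U p) (fderiv ℝ U p a) (fderiv ℝ U p b) (fderiv ℝ U p c)
      + Ω (U p) (fderiv ℝ (fderiv ℝ U) p a b) (fderiv ℝ U p c)
      + Ω (U p) (fderiv ℝ U p b) (fderiv ℝ (fderiv ℝ U) p a c) := by
  have hU1 : HasFDerivAt U (fderiv ℝ U p) p := (hU.differentiableAt (by norm_num)).hasFDerivAt
  have h1 : HasFDerivAt (fun q => Ω (U q)) ((fderiv ℝ Ω (U p)).comp (fderiv ℝ U p)) p :=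
    HasFDerivAt.comp (g := Ω) p hw.hasFDerivAt hU1
  have h2 := hasFDerivAt_fderiv_apply hU b
  have h3 := hasFDerivAt_fderiv_apply hU c
  have h4 := (h1.clm_apply h2).clm_apply h3
  rw [show pb Ω U b c = fun q => Ω (U q) (fderiv ℝ U q b) (fderiv ℝ U q c) from rfl, h4.fderiv]
  simp
  ring

/-- Naturality of the exterior derivative of a closed form: the cyclic sum vanishes. -/
lemma cyc {Ω : E → E →L[ℝ] E →L[ℝ] ℝ} {U : P → E} {p : P} (hU : ContDiffAt ℝ 2 U p)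
    (hw : DifferentiableAt ℝ Ω (U p)) (halt : ∀ u v, Ω (U p) u v = - Ω (U p) v u)
    (hcl : ∀ u v w, fderiv ℝ Ω (U p) u v w + fderiv ℝ Ω (U p) v w u
      + fderiv ℝ Ω (U p) w u v = 0) (a b c : P) :
    fderiv ℝ (pb Ω U b c) p a + fderiv ℝ (pb Ω U c a) p b + fderiv ℝ (pb Ω U a b) p c = 0 := by
  rw [fderiv_pb hU hw, fderiv_pb hU hw, fderiv_pb hU hw]
  have hs : ∀ x y, fderiv ℝ (fderiv ℝ U) p x y = fderiv ℝ (fderiv ℝ U) p y x := by
    intro x y
    have := hU.isSymmSndFDerivAt (by simp)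
    exact this x y
  have e1 := hcl (fderiv ℝ U p a) (fderiv ℝ U p b) (fderiv ℝ U p c)
  rw [hs b a, hs c a, hs c b, halt (fderiv ℝ U p b) (fderiv ℝ (fderiv ℝ U) p a c),
    halt (fderiv ℝ U p c) (fderiv ℝ (fderiv ℝ U) p a b),
    halt (fderiv ℝ U p a) (fderiv ℝ (fderiv ℝ U) p b c)]
  linarith

end Pool.Agent.D0H86.Flux
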