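import Mathlib

/-!
General definitions for compactly supported symplectic and Hamiltonian isotopies of an open
subset `M` of a normed space `E`, with a symplectic form given as a map
`Ω : E → E →L[ℝ] E →L[ℝ] ℝ` (only its values on `M` matter).
A compactly supported map of `M` is represented by its extension to `E` by the identity.
-/

set_option autoImplicit false

open Set Filter Topology
open scoped ContDiff

namespace Pool.Agent.D0H86.Flux

variable {E : Type} [NormedAddCommGroup E] [NormedSpace ℝ E]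

/-- `Ω` is a smooth closed nondegenerate 2-form on the open set `M`. -/
structure IsSymplecticForm (M : Set E) (Ω : E → E →L[ℝ] E →L[ℝ] ℝ) : Prop where
  isOpen : IsOpen M
  smooth : ContDiffOn ℝ ∞ Ω M
  alt : ∀ x ∈ M, ∀ u, Ω x u u = 0
  nondeg : ∀ x ∈ M, ∀ u, (∀ v, Ω x u v = 0) → u = 0
  closed : ∀ x ∈ M, ∀ u v w,
    fderiv ℝ Ω x u v w + fderiv ℝ Ω x v w u + fderiv ℝ Ω x w u v = 0

/-- A smooth compactly supported isotopy `φ t`, `t ∈ ℝ`, of `M`, starting at the identity. -/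
structure IsIsotopy (M : Set E) (φ : ℝ → E → E) : Prop where
  smooth : ContDiff ℝ ∞ (fun q : ℝ × E => φ q.1 q.2)
  zero : ∀ x, φ 0 x = x
  bij : ∀ t, BijOn (φ t) M M
  supp : ∃ K, IsCompact K ∧ K ⊆ M ∧ ∀ t, ∀ x ∉ K, φ t x = x

/-- The map `φ` preserves the form `Ω` on `M`. -/
def Preserves (M : Set E) (Ω : E → E →L[ℝ] E →L[ℝ] ℝ) (φ : E → E) : Prop :=
  ∀ x ∈ M, ∀ u v, Ω (φ x) (fderiv ℝ φ x u) (fderiv ℝ φ x v) = Ω x u v

/-- The identity component `Symp_{c,0}(M, Ω)`: time-one maps of smooth compactly supported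
symplectic isotopies. -/
def SympC0 (M : Set E) (Ω : E → E →L[ℝ] E →L[ℝ] ℝ) : Set (E → E) :=
  {ψ | ∃ φ : ℝ → E → E, IsIsotopy M φ ∧ (∀ t, Preserves M Ω (φ t)) ∧ ψ = φ 1}

/-- The compactly supported Hamiltonian symplectomorphisms `Ham_c(M, Ω)`: time-one maps of
flows `φ` of time-dependent vector fields `X t` with `ι(X t) Ω = d (H t)`, where `H` is smooth
and compactly supported. -/
def HamC (M : Set E) (Ω : E → E →L[ℝ] E →L[ℝ] ℝ) : Set (E → E) :=
  {ψ | ∃ (φ : ℝ → E → E) (H : ℝ → E → ℝ), IsIsotopy M φ ∧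
    ContDiff ℝ ∞ (fun q : ℝ × E => H q.1 q.2) ∧
    (∃ K, IsCompact K ∧ K ⊆ M ∧ ∀ t, ∀ x ∉ K, H t x = 0) ∧
    (∀ t, ∀ x ∈ M, ∀ v, Ω (φ t x) (deriv (fun s => φ s x) t) v = fderiv ℝ (H t) (φ t x) v) ∧
    ψ = φ 1}

end Pool.Agent.D0H86.Flux
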