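import Pool.Agent.D0H86.Flux.Count

set_option autoImplicit false
set_option maxSynthPendingDepth 3

open Set Filter Topology MeasureTheory
open scoped ContDiff

namespace Pool.Agent.D0H86.Flux

theorem isIsotopy_of {E : Type} [NormedAddCommGroup E] [NormedSpace ℝ E] {N : Set E}
    {Ω : E → E →L[ℝ] E →L[ℝ] ℝ} {p : E} {κ : ℝ} {H : ℝ → E → ℝ} {φ φi : ℝ → E → E}
    (h : HF N Ω H φ φi) (c : Cpt N H φ) (n : Near p κ H φ) : IsIsotopy (N \ {p}) φ := by
  obtain ⟨C, hC, hCN, hh⟩ := c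
  obtain ⟨B, hB1, hB2, hB3⟩ := mem_nhds_iff.1 n
  have hp : ∀ t, φ t p = p := fun t => (hB1 hB3 t).2
  have hK : IsCompact (C \ B) := hC.diff hB2
  have hKM : C \ B ⊆ N \ {p} := by
    intro x hx
    refine ⟨hCN hx.1, ?_⟩
    rintro rfl
    exact hx.2 hB3
  have hout : ∀ t, ∀ x ∉ C \ B, φ t x = x := by
    intro t x hx
    by_cases hxC : x ∈ C
    · have hxB : x ∈ B := by
        by_contra h'
        exact hx ⟨hxC, h'⟩
      exact (hB1 hxB t).2
    · exact (hh t x hxC).2
  have inj : ∀ t x y, φ t x = φ t y → x = y := by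
    intro t x y e
    rw [← h.left t x, e, h.left]
  refine ⟨h.sφ, h.zero, ?_, ⟨C \ B, hK, hKM, hout⟩⟩
  intro t
  refine ⟨?_, ?_, ?_⟩
  · intro x hx
    refine ⟨h.maps t x hx.1, ?_⟩
    intro e
    apply hx.2
    exact inj t x p (e.trans (hp t).symm)
  · intro x _ y _ e
    exact inj t x y e
  · intro y hy
    refine ⟨φi t y, ⟨h.mapsi t y hy.1, ?_⟩, h.right t y⟩
    intro e
    apply hy.2
    have : y = φ t p := by rw [← h.right t y, e]
    rw [this, hp]
    rfl

/-- the puncture -/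
def p1 : V := (0, 0, -1, 0)

/-- the manifold of the counterexample: `ℝ⁴` minus two solid cylinders and a point -/
def MM : Set V := NN \ {p1}

theorem isSymplectic : IsSymplecticForm MM Om where
  isOpen := isOpen_NN.sdiff isClosed_singleton
  smooth := contDiff_Om.contDiffOn
  alt := fun x _ u => by simp only [Om_apply]; ring
  nondeg := fun x _ u h => Om_nondeg x u h
  closed := fun x hx u v w => Om_closed hx.1 u v w

/-- the basic flow around the puncture -/
theorem exists_psi : ∃ (χ : V → ℝ) (Ψ : ℝ → V → V) (L : Set V),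
    HF NN Om (fun _ => χ) Ψ (fun t => Ψ (-t)) ∧ Cpt NN (fun _ => χ) Ψ ∧
    Near p1 1 (fun _ => χ) Ψ ∧ IsCompact L ∧ (∀ x ∉ L, χ x = 0 ∧ ∀ t, Ψ t x = x) ∧
    ∀ t, ∀ x ∈ UU, Ψ t x ∈ UU := by
  have h1 : p1 ∈ UU := by
    show (-1 : ℝ) < 0
    norm_num
  obtain ⟨χ, hχ, hχ1, L, hL, hLU, hχ0⟩ := exists_cutoff (isCompact_singleton (x := p1)) isOpen_UU
    (singleton_subset_iff.2 h1)
  rw [nhdsSet_singleton] at hχ1
  obtain ⟨Ψ, f1, f2, -, f4⟩ := base_flow hχ hL (hLU.trans UU_sub) hχ0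
  have hX := XH_off hL hχ0
  have fixL : ∀ x ∉ L, ∀ t, Ψ t x = x := fun x hx t => f4 x (hX x hx) t
  refine ⟨χ, Ψ, L, f1, f2, ?_, hL, fun x hx => ⟨hχ0 x hx, fixL x hx⟩, ?_⟩
  · filter_upwards [hχ1.eventually_nhds] with x hx t
    refine ⟨hx.self_of_nhds, f4 x ?_ t⟩
    apply XH_eq_zero
    have : χ =ᶠ[𝓝 x] fun _ => 1 := hx
    rw [this.fderiv_eq]
    simp
  · intro t x hx
    by_contra h
    have hn : Ψ t x ∉ L := fun h' => h (hLU h')
    have e := fixL _ hn (-t)
    have e2 := f1.left t x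
    rw [e2] at e
    rw [← e] at h
    exact h hx

/-- `Ψ c` is Hamiltonian for `c` in the group generated by the two periods -/
theorem psi_mem {χ : V → ℝ} {Ψ : ℝ → V → V} (h : HF NN Om (fun _ => χ) Ψ (fun t => Ψ (-t)))
    (hc : Cpt NN (fun _ => χ) Ψ) (hn : Near p1 1 (fun _ => χ) Ψ) (m n : ℤ) :
    Ψ (-(2 * Real.pi * m * 1 + 2 * Real.pi * n * (1 + √2))) ∈ HamC MM Om := by
  have g1 : gap (3 / 2) := Or.inr (Or.inl ⟨by norm_num, by norm_num⟩)
  have g2 : gap 4 := Or.inr (Or.inr (by norm_num))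
  have k1 : ∀ᶠ z in 𝓝 (3 / 2 : ℝ), ff z = 1 := by
    filter_upwards [Ioo_mem_nhds (show (1:ℝ) < 3 / 2 by norm_num) (show (3 / 2 : ℝ) < 2 by norm_num)]
      with z hz using ff_mid hz.1.le hz.2.le
  have k2 : ∀ᶠ z in 𝓝 (4 : ℝ), ff z = 1 + √2 := by
    filter_upwards [Ioi_mem_nhds (show (3:ℝ) < 4 by norm_num)] with z hz using ff_top (le_of_lt hz)
  obtain ⟨H1, φ1, φ1i, a1, a2, a3, a4⟩ := exists_loop_gap g1 k1
  obtain ⟨H2, φ2, φ2i, b1, b2, b3, b4⟩ := exists_loop_gap g2 k2
  set c : ℝ := -(2 * Real.pi * m * 1 + 2 * Real.pi * n * (1 + √2)) with hcdef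
  have A := a1.scale (2 * Real.pi * m)
  have A2 := Cpt.scale a2 (2 * Real.pi * m)
  have A3 := Near.scale a3 (2 * Real.pi * m)
  have B := b1.scale (2 * Real.pi * n)
  have B2 := Cpt.scale b2 (2 * Real.pi * n)
  have B3 := Near.scale b3 (2 * Real.pi * n)
  have C := h.scale c
  have C2 := Cpt.scale hc c
  have C3 := Near.scale hn c
  have D := A.prod (presOm A) B
  have D2 := Cpt.prod A A2 B2
  have D3 := Near.prod A A3 B3
  have G := C.prod (presOm C) D
  have G2 := Cpt.prod C C2 D2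
  have G3 := Near.prod C C3 D3
  have e : c * 1 + (2 * Real.pi * m * 1 + 2 * Real.pi * n * (1 + √2)) = 0 := by
    rw [hcdef]; ring
  rw [e] at G3
  have key := mem_hamC G G2 G3
  have e2 : (fun x => Ψ (c * 1) (φ1 (2 * Real.pi * m * 1) (φ2 (2 * Real.pi * n * 1) x))) = Ψ c := by
    funext x
    rw [mul_one, mul_one, mul_one, b4, a4]
  rw [← e2]
  exact key

/-- the set of `c` such that `Ψ c` is Hamiltonian is countable -/
theorem psi_countable {χ : V → ℝ} {Ψ : ℝ → V → V} {L : Set V}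
    (h : HF NN Om (fun _ => χ) Ψ (fun t => Ψ (-t)))
    (hn : Near p1 1 (fun _ => χ) Ψ) (hL : IsCompact L) (hL2 : ∀ x ∉ L, χ x = 0 ∧ ∀ t, Ψ t x = x)
    (hU : ∀ t, ∀ x ∈ UU, Ψ t x ∈ UU) : {c : ℝ | Ψ (-c) ∈ HamC MM Om}.Countable := by
  apply countable_of_area
  rintro c ⟨φ, H, hiso, sH, ⟨K, hK, hKM, hKH⟩, heq, hψ⟩
  obtain ⟨K', hK', hKM', hfix⟩ := hiso.supp
  -- a point far away
  obtain ⟨R, hR⟩ := (((hK.union hK').union hL).isBounded).exists_norm_le
  set W : ℝ := |R| + 1 with hW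
  have hW0 : 0 < W := by positivity
  set l : ℝ → V := fun s => (0, 0, -1, s * W) with hl
  have sl : ContDiff ℝ ∞ l := by rw [hl]; fun_prop
  have hfar : l 1 ∉ (K ∪ K') ∪ L := by
    intro hmem
    have h1 := hR _ hmem
    have h2 : |W| ≤ ‖l 1‖ := by
      rw [hl, Prod.norm_def, Prod.norm_def, Prod.norm_def]
      simp
    rw [abs_of_pos hW0] at h2
    have := le_abs_self R
    linarith
  rw [mem_union, mem_union, not_or, not_or] at hfar
  obtain ⟨⟨far1, far2⟩, far3⟩ := hfar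
  have l0 : l 0 = p1 := by simp [hl, p1]
  have hlU : ∀ s, l s ∈ UU := by
    intro s
    show (-1 : ℝ) < 0
    norm_num
  have hp1K : p1 ∉ K := fun hh => (hKM hh).2 rfl
  have hp1K' : p1 ∉ K' := fun hh => (hKM' hh).2 rfl
  have hlM : ∀ s ∈ Icc (0:ℝ) 1, s ≠ 0 → l s ∈ MM := by
    intro s hs h0
    refine ⟨UU_sub (hlU s), ?_⟩
    intro e
    have e4 := congrArg (fun p : V => p.2.2.2) e
    have : s * W = 0 := e4
    rcases mul_eq_zero.1 this with h' | h'
    · exact h0 h'
    · exact hW0.ne' h'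
  have eqn : ∀ s ∈ Icc (0:ℝ) 1, ∀ t v,
      Om (φ t (l s)) (deriv (fun r => φ r (l s)) t) v = fderiv ℝ (H t) (φ t (l s)) v := by
    intro s hs t v
    by_cases h0 : s = 0
    · subst h0
      rw [l0]
      have e1 : (fun r => φ r p1) = fun _ => p1 := funext fun r => hfix r p1 hp1K'
      have e2 : H t =ᶠ[𝓝 p1] fun _ => 0 := by
        filter_upwards [hK.isClosed.isOpen_compl.mem_nhds hp1K] with y hy using hKH t y hy
      rw [e1, hfix t p1 hp1K', e2.fderiv_eq]
      simp
    · exact heq t _ (hlM s hs h0) v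
  set F : ℝ × ℝ → V := fun p => φ p.2 (l p.1) with hF
  set F' : ℝ × ℝ → V := fun p => Ψ (-c * p.2) (l p.1) with hF'
  have sF : ContDiff ℝ ∞ F := hiso.smooth.comp (contDiff_snd.prodMk (sl.comp contDiff_fst))
  have hs := h.scale (-c)
  have sF' : ContDiff ℝ ∞ F' := hs.sφ.comp (contDiff_snd.prodMk (sl.comp contDiff_fst))
  have hΨp : ∀ t, Ψ t p1 = p1 := fun t => (hn.self_of_nhds t).2
  have hχp : χ p1 = 1 := (hn.self_of_nhds 0).1
  have mapsM : ∀ t, ∀ x ∈ MM, φ t x ∈ MM := fun t x hx => (hiso.bij t).mapsTo hx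
  have area1 : area Om F = 0 := by
    rw [hF, area_ham hiso.smooth sH sl eqn]
    rw [int_zero, neg_zero]
    intro t _
    rw [l0, hfix t p1 hp1K', hfix t (l 1) far2, hKH t _ hp1K, hKH t _ far1, sub_zero]
  have area2 : area Om F' = -c := by
    have e := area_ham hs.sφ hs.sH sl (fun s _ t v => hs.eqn t _ (UU_sub (hlU s)) v)
    rw [hF', e, int_congr (g := fun _ => c)]
    · simp
    · intro t _
      rw [l0, hΨp, (hL2 _ far3).2, (hL2 _ far3).1, hχp]
      ring
  have area3 : area (fun _ => Om0) F = area (fun _ => Om0) F' := by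
    symm
    apply area_eq_of_line (N := univ) contDiff_const (fun _ => Om0_alt) _ sF sF'
    · intro r _ s _ t _
      trivial
    · intro r _ s _ t _ hb v
      have e : F' (s, t) = F (s, t) := by
        rcases hb with h' | h' | h' | h'
        · subst h'
          simp only [hF, hF', l0, hΨp, hfix t p1 hp1K']
        · subst h'
          simp only [hF, hF', hfix t _ far2, (hL2 _ far3).2]
        · subst h'
          simp only [hF, hF', mul_zero, h.zero, hiso.zero]
        · subst h'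
          simp only [hF, hF', mul_one]
          rw [hψ]
      rw [e, sub_self]
      simp
    · intro x _ u v w
      simp
  have area4 : area Om1 F' = 0 := by
    unfold area
    apply int_zero
    intro s _
    apply int_zero
    intro t _
    have : F' (s, t) ∈ UU := hU _ _ (hlU s)
    rw [pb, Om1_UU this]
    simp
  refine ⟨F, sF, ?_, ?_, ?_⟩
  · intro s hs t _
    by_cases h0 : s = 0
    · subst h0
      simp only [hF]
      rw [l0, hfix t p1 hp1K', ← l0]
      exact UU_sub (hlU 0)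
    · exact (mapsM t _ (hlM s hs h0)).1
  · intro s _ t _ hb
    rcases hb with h' | h' | h' | h'
    · subst h'
      simp only [hF]
      rw [l0, hfix t p1 hp1K', ← l0]
      exact hlU 0
    · subst h'
      simp only [hF]
      rw [hfix t _ far2]
      exact hlU 1
    · subst h'
      simp only [hF]
      rw [hiso.zero]
      exact hlU s
    · subst h'
      simp only [hF]
      rw [← hψ]
      exact hU _ _ (hlU s)
  · have e1 := area_Om sF
    have e2 := area_Om sF'
    rw [area1] at e1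
    rw [area2, area4] at e2
    linarith

theorem dense_periods : Dense {c : ℝ | ∃ m n : ℤ,
    c = -(2 * Real.pi * m * 1 + 2 * Real.pi * n * (1 + √2))} := by
  have h1 : Irrational ((2 * Real.pi * (1 + √2)) / (2 * Real.pi)) := by
    rw [mul_div_cancel_left₀ _ (by positivity)]
    have := irrational_sqrt_two.natCast_add 1
    simpa using this
  have h2 := dense_addSubgroupClosure_pair_iff.2 h1
  refine h2.mono ?_
  intro c hc
  rw [SetLike.mem_coe, AddSubgroup.mem_closure_pair] at hc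
  obtain ⟨m, n, h⟩ := hc
  refine ⟨-n, -m, ?_⟩
  rw [← h]
  push_cast
  simp only [zsmul_eq_mul]
  ring

end Pool.Agent.D0H86.Flux
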