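import Pool.Agent.D0H86.Flux.Rot

set_option autoImplicit false
set_option maxSynthPendingDepth 3

open Set Filter Topology MeasureTheory
open scoped ContDiff

namespace Pool.Agent.D0H86.Flux

/-- Realise the integral curves of a locally defined Hamiltonian on a compact set. -/
theorem traj_flow {U B : Set V} (hU : IsOpen U) (hUN : U ⊆ NN) (hB : IsCompact B) {G : V → ℝ}
    (hG : ∀ x ∈ U, ContDiffAt ℝ ∞ G x) {Γ : ℝ × V → V} (hΓ : ContinuousOn Γ (Icc (0:ℝ) 1 ×ˢ B))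
    (hmem : ∀ t ∈ Icc (0:ℝ) 1, ∀ q ∈ B, Γ (t, q) ∈ U) (hΓ0 : ∀ q ∈ B, Γ (0, q) = q)
    (hd : ∀ t ∈ Icc (0:ℝ) 1, ∀ q ∈ B, HasDerivAt (fun s => Γ (s, q)) (XH G (Γ (t, q))) t) :
    ∃ (H : ℝ → V → ℝ) (θ θi : ℝ → V → V), HF NN Om H θ θi ∧ Cpt NN H θ ∧
      ∀ q ∈ B, θ 1 q = Γ (1, q) := by
  set K := Γ '' (Icc (0:ℝ) 1 ×ˢ B) with hKd
  have hK : IsCompact K := (isCompact_Icc.prod hB).image_of_continuousOn hΓ
  have hKU : K ⊆ U := by
    rintro _ ⟨⟨t, q⟩, ⟨ht, hq⟩, rfl⟩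
    exact hmem t ht q hq
  obtain ⟨χ, hχ, hχ1, L, hL, hLU, hχ0⟩ := exists_cutoff hK hU hKU
  set H : V → ℝ := fun x => χ x * G x with hH
  have sH : ContDiff ℝ ∞ H := by
    rw [contDiff_iff_contDiffAt]
    intro x
    by_cases hx : x ∈ U
    · exact hχ.contDiffAt.mul (hG x hx)
    · have hxL : x ∉ L := fun h => hx (hLU h)
      have : H =ᶠ[𝓝 x] fun _ => 0 := by
        filter_upwards [hL.isClosed.isOpen_compl.mem_nhds hxL] with y hy
        simp [hH, hχ0 y hy]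
      exact contDiffAt_const.congr_of_eventuallyEq this
  have h0 : ∀ x ∉ L, H x = 0 := fun x hx => by simp [hH, hχ0 x hx]
  obtain ⟨θ, h1, h2, h3, -⟩ := base_flow sH hL (hLU.trans hUN) h0
  refine ⟨_, θ, _, h1, h2, ?_⟩
  intro q hq
  have key := h3 (fun t => Γ (t, q)) ?_
  · rw [← hΓ0 q hq] 
    simpa [hΓ0 q hq] using key
  · intro t ht
    have hmK : Γ (t, q) ∈ K := ⟨(t, q), ⟨ht, hq⟩, rfl⟩
    have e : H =ᶠ[𝓝 (Γ (t, q))] G := by
      have := hχ1.filter_mono (nhds_le_nhdsSet hmK)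
      filter_upwards [this] with y hy
      simp [hH, hy]
    rw [XH_congr e]
    exact hd t ht q hq

/-- the gap region -/
def GG : Set V := {p | gap p.2.2.1}

lemma isOpen_GG : IsOpen GG := by
  have h2 : IsOpen {z : ℝ | gap z} := isOpen_iff_mem_nhds.2 fun z hz => gap_eventually hz
  exact h2.preimage (by fun_prop : Continuous (fun p : V => p.2.2.1))

lemma GG_sub : GG ⊆ NN := fun _ hp => Or.inr hp

/-- translation in the `x`-direction inside the gap region -/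
theorem trans_x (c : ℝ) {B : Set V} (hB : IsCompact B) (hBG : B ⊆ GG) :
    ∃ (H : ℝ → V → ℝ) (θ θi : ℝ → V → V), HF NN Om H θ θi ∧ Cpt NN H θ ∧
      ∀ q ∈ B, θ 1 q = q + (c, 0, 0, 0) := by
  have hG : ContDiff ℝ ∞ (fun p : V => c * p.2.1) := by fun_prop
  have hX : ∀ p ∈ GG, XH (fun p : V => c * p.2.1) p = (c, 0, 0, 0) := by
    intro p hp
    have h2 : HasFDerivAt (fun p : V => p.2.1) py p := py.hasFDerivAt
    have h3 : fderiv ℝ (fun p : V => c * p.2.1) p = c • py := (h2.const_mul c).fderiv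
    have ha : aa p = 0 := by simp [aa, kk_gap hp]
    have hb : bb p = 0 := by simp [bb, kk_gap hp]
    simp [XH, h3, ha, hb]
  have hh := traj_flow (Γ := fun q : ℝ × V => q.2 + q.1 • ((c, 0, 0, 0) : V))
    isOpen_GG GG_sub hB (fun x _ => hG.contDiffAt) (by fun_prop) ?_ ?_ ?_
  · obtain ⟨H, θ, θi, h1, h2, h3⟩ := hh
    exact ⟨H, θ, θi, h1, h2, fun q hq => by simpa using h3 q hq⟩
  · intro t _ q hq
    have : q + t • ((c, 0, 0, 0) : V) = (q.1 + t * c, q.2.1, q.2.2.1, q.2.2.2) := by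
      ext <;> simp
    rw [this]
    have hg : gap q.2.2.1 := hBG hq
    exact hg
  · intro q _
    simp
  · intro t _ q hq
    rw [hX]
    · simpa using ((hasDerivAt_id t).smul_const ((c, 0, 0, 0) : V)).const_add q
    · have : q + t • ((c, 0, 0, 0) : V) = (q.1 + t * c, q.2.1, q.2.2.1, q.2.2.2) := by
        ext <;> simp
      simp only [this]
      have hg : gap q.2.2.1 := hBG hq
      exact hg

/-- translation in the `z`-direction in the region `1 < x` -/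
theorem trans_z (v : ℝ) {B : Set V} (hB : IsCompact B) (hB1 : ∀ q ∈ B, 1 < q.1)
    (hB2 : ∀ q ∈ B, gap q.2.2.1 ∧ gap (q.2.2.1 + v)) :
    ∃ (H : ℝ → V → ℝ) (θ θi : ℝ → V → V), HF NN Om H θ θi ∧ Cpt NN H θ ∧
      ∀ q ∈ B, θ 1 q = q + (0, 0, v, 0) := by
  set U : Set V := {p | 1 < p.1} with hUd
  have hU : IsOpen U := isOpen_lt continuous_const continuous_fst
  have hUN : U ⊆ NN := by
    intro p hp
    left
    have h1 : 1 < p.1 := hp
    unfold rr
    nlinarith [sq_nonneg p.2.1]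
  set at2 : V → ℝ := fun p => Real.arctan (p.2.1 / p.1) with hat
  set G : V → ℝ := fun p => v * (p.2.2.2 + kk p.2.2.1 * at2 p) with hG
  have sat : ∀ x ∈ U, ContDiffAt ℝ ∞ at2 x := by
    intro x hx
    have h1 : (1:ℝ) < x.1 := hx
    have h0 : x.1 ≠ 0 := by linarith
    have : ContDiffAt ℝ ∞ (fun p : V => p.2.1 / p.1) x := by
      apply ContDiffAt.div (by fun_prop) (by fun_prop) h0
    exact Real.contDiff_arctan.contDiffAt.comp x this
  have sG : ∀ x ∈ U, ContDiffAt ℝ ∞ G x := by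
    intro x hx
    exact contDiffAt_const.mul (ContDiffAt.add (by fun_prop) (contDiff_kz.contDiffAt.mul (sat x hx)))
  have dG : ∀ x ∈ U, ∀ u, fderiv ℝ G x u = v * (u.2.2.2 + (deriv kk x.2.2.1 * u.2.2.1 * at2 x
      + kk x.2.2.1 * ((x.1 * u.2.1 - x.2.1 * u.1) / rr x))) := by
    intro x hx u
    have h1 : (1:ℝ) < x.1 := hx
    have h0 : x.1 ≠ 0 := by linarith
    have hrr : rr x ≠ 0 := by
      have : 0 < rr x := by unfold rr; positivity
      exact this.ne'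
    have d1 : HasFDerivAt (fun p : V => p.1) px x := px.hasFDerivAt
    have d2 : HasFDerivAt (fun p : V => p.2.1) py x := py.hasFDerivAt
    have d4 : HasFDerivAt (fun p : V => p.2.2.2) pw x := pw.hasFDerivAt
    have d5 : HasFDerivAt (fun p : V => p.1⁻¹) ((-(x.1 ^ 2)⁻¹) • px) x :=
      HasDerivAt.comp_hasFDerivAt (h₂ := fun r : ℝ => r⁻¹) x (hasDerivAt_inv h0) d1
    have d6 := d2.mul d5
    have d7 : HasFDerivAt at2 _ x :=
      HasDerivAt.comp_hasFDerivAt (h₂ := Real.arctan) x (Real.hasDerivAt_arctan _) d6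
    have d8 : HasFDerivAt G _ x := (d4.add ((fderiv_kz x).mul d7)).const_mul v
    rw [d8.fderiv]
    simp only [smul_apply, add_apply, smul_eq_mul, px_apply, py_apply, pz_apply,
      pw_apply, hat, div_eq_mul_inv]
    have hr : rr x = x.1 ^ 2 + x.2.1 ^ 2 := rfl
    rw [hr] at hrr ⊢
    field_simp
    ring
  have hX : ∀ p ∈ U, XH G p = (0, 0, v, - (v * (deriv kk p.2.2.1 * at2 p))) := by
    intro p hp
    have h1 : (1:ℝ) < p.1 := hp
    have hr1 : 1 ≤ rr p := by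
      unfold rr; nlinarith [sq_nonneg p.2.1]
    have hrr : rr p ≠ 0 := by positivity
    unfold XH
    rw [dG p hp, dG p hp, dG p hp, dG p hp]
    simp only [aa, bb, kap_of_ge hr1]
    ext
    · simp; field_simp; ring
    · simp; field_simp; ring
    · simp
    · simp; field_simp; ring
  set Γ : ℝ × V → V := fun q => (q.2.1, q.2.2.1, q.2.2.2.1 + q.1 * v,
    q.2.2.2.2 - (kk (q.2.2.2.1 + q.1 * v) - kk q.2.2.2.1) * Real.arctan (q.2.2.1 / q.2.1)) with hΓ
  have cΓ : ContinuousOn Γ (Icc (0:ℝ) 1 ×ˢ B) := by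
    rintro ⟨t, q⟩ ⟨_, hq⟩
    apply ContinuousAt.continuousWithinAt
    have h1 : (1:ℝ) < q.1 := hB1 q hq
    have h0 : q.1 ≠ 0 := by linarith
    have hk : Continuous kk := contDiff_kk.continuous
    have c1 : ContinuousAt (fun q : ℝ × V => q.2.2.1 / q.2.1) (t, q) :=
      ContinuousAt.div (by fun_prop) (by fun_prop) h0
    have c2 : ContinuousAt (fun q : ℝ × V => Real.arctan (q.2.2.1 / q.2.1)) (t, q) :=
      Real.continuous_arctan.continuousAt.comp (f := fun q : ℝ × V => q.2.2.1 / q.2.1) c1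
    have c3 : Continuous (fun q : ℝ × V => kk (q.2.2.2.1 + q.1 * v) - kk q.2.2.2.1) :=
      (hk.comp (by fun_prop)).sub (hk.comp (by fun_prop))
    have c4 : ContinuousAt (fun q : ℝ × V => q.2.2.2.2 - (kk (q.2.2.2.1 + q.1 * v) - kk q.2.2.2.1)
        * Real.arctan (q.2.2.1 / q.2.1)) (t, q) :=
      ContinuousAt.sub (by fun_prop) (c3.continuousAt.mul c2)
    exact ContinuousAt.prodMk (by fun_prop) (ContinuousAt.prodMk (by fun_prop)
      (ContinuousAt.prodMk (by fun_prop) c4))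
  have hh := traj_flow hU hUN hB sG cΓ ?_ ?_ ?_
  · obtain ⟨H, θ, θi, h1, h2, h3⟩ := hh
    refine ⟨H, θ, θi, h1, h2, fun q hq => ?_⟩
    rw [h3 q hq]
    simp only [hΓ, one_mul, kk_gap (hB2 q hq).1, kk_gap (hB2 q hq).2]
    ext <;> simp
  · intro t _ q hq
    exact hB1 q hq
  · intro q _
    simp [hΓ]
  · intro t _ q hq
    have hm : Γ (t, q) ∈ U := hB1 q hq
    rw [hX _ hm]
    have d1 : HasDerivAt (fun s : ℝ => q.2.2.1 + s * v) v t := by
      simpa using ((hasDerivAt_id t).mul_const v).const_add q.2.2.1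
    have d2 : HasDerivAt kk (deriv kk (q.2.2.1 + t * v)) (q.2.2.1 + t * v) :=
      (contDiff_kk.differentiable (by simp) _).hasDerivAt
    have d3 : HasDerivAt (fun s : ℝ => kk (q.2.2.1 + s * v)) (deriv kk (q.2.2.1 + t * v) * v) t :=
      HasDerivAt.comp (h₂ := kk) t d2 d1
    have d4 := ((d3.sub_const (kk q.2.2.1)).mul_const (Real.arctan (q.2.1 / q.1))).const_sub q.2.2.2
    have d := (hasDerivAt_const t q.1).prodMk ((hasDerivAt_const t q.2.1).prodMk (d1.prodMk d4))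
    refine d.congr_deriv ?_
    simp only [hΓ, hat]
    ext <;> simp
    ring

/-- A compactly supported Hamiltonian isotopy of `NN` whose time-one map translates a
neighbourhood of `(0, 0, z2, 0)` onto a neighbourhood of `(0, 0, -1, 0)`. -/
theorem exists_trans {z2 : ℝ} (hz : gap z2) :
    ∃ (K : ℝ → V → ℝ) (θ θi : ℝ → V → V), HF NN Om K θ θi ∧ Cpt NN K θ ∧
      ∀ᶠ x in 𝓝 ((0, 0, z2, 0) : V), θ 1 x = x + (0, 0, -1 - z2, 0) := by
  obtain ⟨ε, hε, hb⟩ := Metric.eventually_nhds_iff.1 (gap_eventually hz)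
  set p2 : V := (0, 0, z2, 0) with hp2
  set δ : ℝ := min (ε / 2) (1 / 2) with hδ
  have hδp : 0 < δ := by positivity
  set B : Set V := Metric.closedBall p2 δ with hB
  have hBc : IsCompact B := isCompact_closedBall _ _
  have hBz : ∀ q ∈ B, gap q.2.2.1 ∧ gap (q.2.2.1 + (-1 - z2)) ∧ |q.1| ≤ 1 / 2 := by
    intro q hq
    rw [hB, Metric.mem_closedBall, Prod.dist_eq, max_le_iff, Prod.dist_eq, max_le_iff,
      Prod.dist_eq, max_le_iff] at hq
    obtain ⟨h1, h2, h3, h4⟩ := hq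
    have e1 : dist q.2.2.1 z2 ≤ δ := h3
    have e2 : dist q.1 0 ≤ δ := h1
    have e3 : δ ≤ ε / 2 := min_le_left _ _
    have e4 : δ ≤ 1 / 2 := min_le_right _ _
    refine ⟨hb (by linarith), Or.inl ?_, ?_⟩
    · rw [Real.dist_eq, abs_le] at e1
      linarith
    · rw [Real.dist_eq, sub_zero] at e2
      linarith
  have hBG : B ⊆ GG := fun q hq => (hBz q hq).1
  obtain ⟨Ha, θa, θai, a1, a2, a3⟩ := trans_x 3 hBc hBG
  set B1 : Set V := (fun q => q + ((3, 0, 0, 0) : V)) '' B with hB1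
  have hB1c : IsCompact B1 := hBc.image (by fun_prop)
  obtain ⟨Hb, θb, θbi, b1, b2, b3⟩ := trans_z (-1 - z2) hB1c (by
    rintro _ ⟨q, hq, rfl⟩
    have := (hBz q hq).2.2
    rw [abs_le] at this
    show 1 < q.1 + 3
    linarith) (by
    rintro _ ⟨q, hq, rfl⟩
    have h1 := (hBz q hq).1
    have h2 := (hBz q hq).2.1
    have e : (q + ((3, 0, 0, 0) : V)).2.2.1 = q.2.2.1 := by simp
    simp only [e]
    exact ⟨h1, h2⟩)
  set B2 : Set V := (fun q => q + ((0, 0, -1 - z2, 0) : V)) '' B1 with hB2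
  have hB2c : IsCompact B2 := hB1c.image (by fun_prop)
  obtain ⟨Hc, θc, θci, c1, c2, c3⟩ := trans_x (-3) hB2c (by
    rintro _ ⟨_, ⟨q, hq, rfl⟩, rfl⟩
    have h2 := (hBz q hq).2.1
    show gap (q + ((3, 0, 0, 0) : V) + ((0, 0, -1 - z2, 0) : V)).2.2.1
    simpa using h2)
  have p1 := b1.prod (presOm b1) a1
  have q1 := Cpt.prod b1 b2 a2
  have p2' := c1.prod (presOm c1) p1
  have q2 := Cpt.prod c1 c2 q1
  refine ⟨_, _, _, p2', q2, ?_⟩
  filter_upwards [Metric.closedBall_mem_nhds p2 hδp] with x hx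
  show θc 1 (θb 1 (θa 1 x)) = _
  rw [a3 x hx, b3 _ ⟨x, hx, rfl⟩, c3 _ ⟨_, ⟨x, hx, rfl⟩, rfl⟩]
  ext <;> simp

/-- the two loops -/
theorem exists_loop_gap {z2 κ : ℝ} (hz : gap z2) (hk : ∀ᶠ z in 𝓝 z2, ff z = κ) :
    ∃ (H : ℝ → V → ℝ) (φ φi : ℝ → V → V), HF NN Om H φ φi ∧ Cpt NN H φ ∧
      Near (0, 0, -1, 0) κ H φ ∧ ∀ (m : ℤ) x, φ (2 * Real.pi * m) x = x := by
  obtain ⟨K, θ, θi, h1, h2, h3⟩ := exists_trans hz
  exact exists_loop h1 h2 hk h3

end Pool.Agent.D0H86.Flux
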