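import Pool.Agent.D0H86.Flux.HF

set_option autoImplicit false

open Set Filter Topology MeasureTheory
open scoped ContDiff

namespace Pool.Agent.D0H86.Flux

variable {E : Type} [NormedAddCommGroup E] [NormedSpace ℝ E]
variable {N : Set E} {Ω : E → E →L[ℝ] E →L[ℝ] ℝ}

/-- product of two Hamiltonian isotopies -/
theorem HF.prod {H K : ℝ → E → ℝ} {φ φi θ θi : ℝ → E → E} (h : HF N Ω H φ φi)
    (hp : ∀ t x, x ∈ N → ∀ u v, Ω (φ t x) (fderiv ℝ (φ t) x u) (fderiv ℝ (φ t) x v) = Ω x u v)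
    (k : HF N Ω K θ θi) :
    HF N Ω (fun t x => H t x + K t (φi t x)) (fun t x => φ t (θ t x))
      (fun t x => θi t (φi t x)) where
  sH := h.sH.add (k.sH.comp (contDiff_fst.prodMk h.sφi))
  sφ := h.sφ.comp (contDiff_fst.prodMk k.sφ)
  sφi := k.sφi.comp (contDiff_fst.prodMk h.sφi)
  left := fun t x => by rw [h.left, k.left]
  right := fun t x => by rw [k.right, h.right]
  zero := fun x => by rw [k.zero, h.zero]
  maps := fun t x hx => h.maps t _ (k.maps t x hx)
  mapsi := fun t x hx => k.mapsi t _ (h.mapsi t x hx)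
  eqn := by
    intro t x hx v
    set ξ := θ t x with hξ
    have hξN : ξ ∈ N := k.maps t x hx
    set y := φ t ξ with hy
    have d1 : HasDerivAt (fun s => θ s x) (deriv (fun s => θ s x) t) t :=
      ((smooth_slice' k.sφ x).differentiable (by simp) t).hasDerivAt
    have d2 := deriv_comp2 h.sφ d1
    rw [d2.deriv, map_add, add_apply]
    have e1 : Ω y (deriv (fun s => φ s ξ) t) v = fderiv ℝ (H t) y v := h.eqn t ξ hξN v
    have hφd : HasFDerivAt (φ t) (fderiv ℝ (φ t) ξ) ξ :=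
      ((smooth_slice h.sφ t).differentiable (by simp) ξ).hasFDerivAt
    have hyi : φi t y = ξ := h.left t ξ
    have hφid : HasFDerivAt (φi t) (fderiv ℝ (φi t) y) y :=
      ((smooth_slice h.sφi t).differentiable (by simp) y).hasFDerivAt
    have c1 : HasFDerivAt (fun z => φ t (φi t z)) ((fderiv ℝ (φ t) ξ).comp (fderiv ℝ (φi t) y)) y := by
      have : HasFDerivAt (φ t) (fderiv ℝ (φ t) ξ) (φi t y) := by rw [hyi]; exact hφd
      exact HasFDerivAt.comp (g := φ t) y this hφid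
    have c2 : (fun z => φ t (φi t z)) = id := funext fun z => h.right t z
    have c3 : fderiv ℝ (φ t) ξ (fderiv ℝ (φi t) y v) = v := by
      have := c1.fderiv
      rw [c2, fderiv_id] at this
      have := congrArg (fun L => L v) this
      simpa using this.symm
    have e2 : Ω y (fderiv ℝ (φ t) ξ (deriv (fun s => θ s x) t)) v
        = fderiv ℝ (K t) ξ (fderiv ℝ (φi t) y v) := by
      conv_lhs => rw [← c3]
      rw [hy, hp t ξ hξN]
      exact k.eqn t x hx _
    have hKd : HasFDerivAt (K t) (fderiv ℝ (K t) ξ) (φi t y) := by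
      rw [hyi]; exact ((smooth_slice k.sH t).differentiable (by simp) ξ).hasFDerivAt
    have e3 : HasFDerivAt (fun z => H t z + K t (φi t z))
        (fderiv ℝ (H t) y + (fderiv ℝ (K t) ξ).comp (fderiv ℝ (φi t) y)) y :=
      ((smooth_slice h.sH t).differentiable (by simp) y).hasFDerivAt.add
        (HasFDerivAt.comp (g := K t) y hKd hφid)
    rw [e3.fderiv, e1, e2]
    rfl

/-- conjugation of a Hamiltonian isotopy by a symplectic diffeomorphism -/
theorem HF.conj {H : ℝ → E → ℝ} {φ φi : ℝ → E → E} (h : HF N Ω H φ φi) {g gi : E → E}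
    (sg : ContDiff ℝ ∞ g) (sgi : ContDiff ℝ ∞ gi) (l : ∀ x, gi (g x) = x) (r : ∀ x, g (gi x) = x)
    (mg : ∀ x ∈ N, g x ∈ N) (mgi : ∀ x ∈ N, gi x ∈ N)
    (hp : ∀ x ∈ N, ∀ u v, Ω (g x) (fderiv ℝ g x u) (fderiv ℝ g x v) = Ω x u v) :
    HF N Ω (fun t x => H t (gi x)) (fun t x => g (φ t (gi x))) (fun t x => g (φi t (gi x))) where
  sH := h.sH.comp (contDiff_fst.prodMk (sgi.comp contDiff_snd))
  sφ := sg.comp (h.sφ.comp (contDiff_fst.prodMk (sgi.comp contDiff_snd)))
  sφi := sg.comp (h.sφi.comp (contDiff_fst.prodMk (sgi.comp contDiff_snd)))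
  left := fun t x => by rw [l, h.left, r]
  right := fun t x => by rw [l, h.right, r]
  zero := fun x => by rw [h.zero, r]
  maps := fun t x hx => mg _ (h.maps t _ (mgi x hx))
  mapsi := fun t x hx => mg _ (h.mapsi t _ (mgi x hx))
  eqn := by
    intro t x hx v
    have hxi : gi x ∈ N := mgi x hx
    set ξ := φ t (gi x) with hξ
    have hξN : ξ ∈ N := h.maps t _ hxi
    set y := g ξ with hy
    have hgd : HasFDerivAt g (fderiv ℝ g ξ) ξ := (sg.differentiable (by simp) ξ).hasFDerivAt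
    have d1 : HasDerivAt (fun s => φ s (gi x)) (deriv (fun s => φ s (gi x)) t) t :=
      ((smooth_slice' h.sφ (gi x)).differentiable (by simp) t).hasDerivAt
    have d2 : HasDerivAt (fun s => g (φ s (gi x))) _ t :=
      HasFDerivAt.comp_hasDerivAt (l := g) t hgd d1
    have hyi : gi y = ξ := l ξ
    have hgid : HasFDerivAt gi (fderiv ℝ gi y) y := (sgi.differentiable (by simp) y).hasFDerivAt
    have c1 : HasFDerivAt (fun z => g (gi z)) ((fderiv ℝ g ξ).comp (fderiv ℝ gi y)) y := by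
      have : HasFDerivAt g (fderiv ℝ g ξ) (gi y) := by rw [hyi]; exact hgd
      exact HasFDerivAt.comp (g := g) y this hgid
    have c2 : (fun z => g (gi z)) = id := funext fun z => r z
    have c3 : fderiv ℝ g ξ (fderiv ℝ gi y v) = v := by
      have := c1.fderiv
      rw [c2, fderiv_id] at this
      have := congrArg (fun L => L v) this
      simpa using this.symm
    have hHd : HasFDerivAt (H t) (fderiv ℝ (H t) ξ) (gi y) := by
      rw [hyi]; exact ((smooth_slice h.sH t).differentiable (by simp) ξ).hasFDerivAt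
    have e3 : HasFDerivAt (fun z => H t (gi z)) ((fderiv ℝ (H t) ξ).comp (fderiv ℝ gi y)) y :=
      HasFDerivAt.comp (g := H t) y hHd hgid
    rw [d2.deriv, e3.fderiv, ContinuousLinearMap.comp_apply]
    conv_lhs => rw [← c3]
    rw [hy, hp ξ hξN]
    exact h.eqn t (gi x) hxi _

/-- time rescaling -/
theorem HF.scale {H : ℝ → E → ℝ} {φ φi : ℝ → E → E} (h : HF N Ω H φ φi) (a : ℝ) :
    HF N Ω (fun t x => a * H (a * t) x) (fun t => φ (a * t)) (fun t => φi (a * t)) where
  sH := contDiff_const.mul (h.sH.comp ((contDiff_const.mul contDiff_fst).prodMk contDiff_snd))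
  sφ := h.sφ.comp ((contDiff_const.mul contDiff_fst).prodMk contDiff_snd)
  sφi := h.sφi.comp ((contDiff_const.mul contDiff_fst).prodMk contDiff_snd)
  left := fun t x => h.left _ x
  right := fun t x => h.right _ x
  zero := fun x => by rw [mul_zero, h.zero]
  maps := fun t x hx => h.maps _ x hx
  mapsi := fun t x hx => h.mapsi _ x hx
  eqn := by
    intro t x hx v
    have d1 : HasDerivAt (fun s => φ s x) (deriv (fun s => φ s x) (a * t)) (a * t) :=
      ((smooth_slice' h.sφ x).differentiable (by simp) _).hasDerivAt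
    have d2 : HasDerivAt (fun s : ℝ => a * s) a t := by
      simpa using (hasDerivAt_id t).const_mul a
    have d3 : HasDerivAt (fun s => φ (a * s) x) _ t := d1.scomp t d2
    have hHd : HasFDerivAt (H (a * t)) (fderiv ℝ (H (a * t)) (φ (a * t) x)) (φ (a * t) x) :=
      ((smooth_slice h.sH _).differentiable (by simp) _).hasFDerivAt
    rw [d3.deriv, (hHd.const_mul a).fderiv]
    simp only [map_smul, smul_apply, smul_eq_mul]
    rw [h.eqn _ x hx]

/-- common compact support -/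
def Cpt (N : Set E) (H : ℝ → E → ℝ) (φ : ℝ → E → E) : Prop :=
  ∃ C, IsCompact C ∧ C ⊆ N ∧ ∀ t, ∀ x ∉ C, H t x = 0 ∧ φ t x = x

/-- trivial near `p`, with Hamiltonian equal to the constant `κ` -/
def Near (p : E) (κ : ℝ) (H : ℝ → E → ℝ) (φ : ℝ → E → E) : Prop :=
  ∀ᶠ x in 𝓝 p, ∀ t, H t x = κ ∧ φ t x = x

lemma HF.inv_fix {H : ℝ → E → ℝ} {φ φi : ℝ → E → E} (h : HF N Ω H φ φi) {t : ℝ} {x : E}
    (e : φ t x = x) : φi t x = x := by
  conv_lhs => rw [← e]
  exact h.left t x

lemma Cpt.prod {H K : ℝ → E → ℝ} {φ φi θ : ℝ → E → E} (h : HF N Ω H φ φi)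
    (c1 : Cpt N H φ) (c2 : Cpt N K θ) :
    Cpt N (fun t x => H t x + K t (φi t x)) (fun t x => φ t (θ t x)) := by
  obtain ⟨C1, hc1, hs1, h1⟩ := c1
  obtain ⟨C2, hc2, hs2, h2⟩ := c2
  refine ⟨C1 ∪ C2, hc1.union hc2, union_subset hs1 hs2, ?_⟩
  intro t x hx
  rw [mem_union, not_or] at hx
  obtain ⟨a1, a2⟩ := h1 t x hx.1
  obtain ⟨b1, b2⟩ := h2 t x hx.2
  simp only [h.inv_fix a2, a1, b1, b2, a2, add_zero, and_self]

lemma Near.prod {p : E} {κ κ' : ℝ} {H K : ℝ → E → ℝ} {φ φi θ : ℝ → E → E}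
    (h : HF N Ω H φ φi) (c1 : Near p κ H φ) (c2 : Near p κ' K θ) :
    Near p (κ + κ') (fun t x => H t x + K t (φi t x)) (fun t x => φ t (θ t x)) := by
  filter_upwards [c1, c2] with x h1 h2 t
  obtain ⟨a1, a2⟩ := h1 t
  obtain ⟨b1, b2⟩ := h2 t
  simp only [h.inv_fix a2, a1, b1, b2, a2, and_self]

lemma Cpt.scale {H : ℝ → E → ℝ} {φ : ℝ → E → E} (c : Cpt N H φ) (a : ℝ) :
    Cpt N (fun t x => a * H (a * t) x) (fun t => φ (a * t)) := by
  obtain ⟨C, hc, hs, h⟩ := c
  refine ⟨C, hc, hs, fun t x hx => ?_⟩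
  simp only [(h (a * t) x hx).1, (h (a * t) x hx).2, mul_zero, and_self]

lemma Near.scale {p : E} {κ : ℝ} {H : ℝ → E → ℝ} {φ : ℝ → E → E} (c : Near p κ H φ) (a : ℝ) :
    Near p (a * κ) (fun t x => a * H (a * t) x) (fun t => φ (a * t)) := by
  filter_upwards [c] with x h t
  simp only [(h (a * t)).1, (h (a * t)).2, and_self]

/-- an isotopy that is trivial near `p` with vanishing Hamiltonian gives an element of `HamC` -/
theorem mem_hamC {p : E} {H : ℝ → E → ℝ} {φ φi : ℝ → E → E} (h : HF N Ω H φ φi)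
    (c : Cpt N H φ) (n : Near p 0 H φ) : φ 1 ∈ HamC (N \ {p}) Ω := by
  obtain ⟨C, hC, hCN, hh⟩ := c
  obtain ⟨B, hB1, hB2, hB3⟩ := mem_nhds_iff.1 n
  have hp : ∀ t, φ t p = p := fun t => (hB1 hB3 t).2
  have hK : IsCompact (C \ B) := hC.diff hB2
  have hKM : C \ B ⊆ N \ {p} := by
    intro x hx
    refine ⟨hCN hx.1, ?_⟩
    rintro rfl
    exact hx.2 hB3
  have hout : ∀ t, ∀ x ∉ C \ B, H t x = 0 ∧ φ t x = x := by
    intro t x hx
    by_cases hxC : x ∈ C
    · have hxB : x ∈ B := by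
        by_contra h'
        exact hx ⟨hxC, h'⟩
      exact hB1 hxB t
    · exact hh t x hxC
  have inj : ∀ t x y, φ t x = φ t y → x = y := by
    intro t x y e
    rw [← h.left t x, e, h.left]
  refine ⟨φ, H, ⟨h.sφ, h.zero, ?_, ⟨C \ B, hK, hKM, fun t x hx => (hout t x hx).2⟩⟩, h.sH,
    ⟨C \ B, hK, hKM, fun t x hx => (hout t x hx).1⟩, ?_, rfl⟩
  · intro t
    refine ⟨?_, ?_, ?_⟩
    · intro x hx
      refine ⟨h.maps t x hx.1, ?_⟩
      intro e
      apply hx.2
      exact inj t x p (e.trans (hp t).symm)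
    · intro x _ y _ e
      exact inj t x y e
    · intro y hy
      refine ⟨φi t y, ⟨h.mapsi t y hy.1, ?_⟩, h.right t y⟩
      intro e
      apply hy.2
      have : y = φ t p := by rw [← h.right t y, e]
      rw [this, hp]
      rfl
  · intro t x hx v
    exact h.eqn t x hx.1 v

end Pool.Agent.D0H86.Flux
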