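import Pool.Agent.D0H86.Flux.Cyc

set_option autoImplicit false

open Set Filter Topology MeasureTheory intervalIntegral
open scoped ContDiff

namespace Pool.Agent.D0H86.Flux

variable {E : Type} [NormedAddCommGroup E] [NormedSpace ℝ E]
variable {P : Type} [NormedAddCommGroup P] [NormedSpace ℝ P]

lemma contDiff_pb {Ω : E → E →L[ℝ] E →L[ℝ] ℝ} (hw : ContDiff ℝ ∞ Ω) {U : P → E}
    (hU : ContDiff ℝ ∞ U) (b c : P) : ContDiff ℝ ∞ (pb Ω U b c) := by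
  have h1 : ∀ b : P, ContDiff ℝ ∞ (fun p => fderiv ℝ U p b) := fun b =>
    (hU.fderiv_right (m := ∞) (by simp)).clm_apply contDiff_const
  exact ((hw.comp hU).clm_apply (h1 b)).clm_apply (h1 c)

/-- the integral of the pulled back form over the unit square -/
noncomputable def area (Ω : E → E →L[ℝ] E →L[ℝ] ℝ) (F : ℝ × ℝ → E) : ℝ :=
  ∫ s in (0:ℝ)..1, ∫ t in (0:ℝ)..1, pb Ω F (1, 0) (0, 1) (s, t)

/-- the straight line homotopy -/
def line (F0 F1 : ℝ × ℝ → E) (q : ℝ × (ℝ × ℝ)) : E := F0 q.2 + q.1 • (F1 q.2 - F0 q.2)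

lemma contDiff_line {F0 F1 : ℝ × ℝ → E} (h0 : ContDiff ℝ ∞ F0) (h1 : ContDiff ℝ ∞ F1) :
    ContDiff ℝ ∞ (line F0 F1) := by
  have e0 : ContDiff ℝ ∞ (fun q : ℝ × (ℝ × ℝ) => F0 q.2) := h0.comp contDiff_snd
  have e1 : ContDiff ℝ ∞ (fun q : ℝ × (ℝ × ℝ) => F1 q.2) := h1.comp contDiff_snd
  exact e0.add (contDiff_fst.smul (e1.sub e0))

lemma fderiv_line {F0 F1 : ℝ × ℝ → E} (h0 : ContDiff ℝ ∞ F0) (h1 : ContDiff ℝ ∞ F1)
    (q : ℝ × (ℝ × ℝ)) (v : ℝ × (ℝ × ℝ)) :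
    fderiv ℝ (line F0 F1) q v = fderiv ℝ F0 q.2 v.2
      + q.1 • (fderiv ℝ F1 q.2 v.2 - fderiv ℝ F0 q.2 v.2) + v.1 • (F1 q.2 - F0 q.2) := by
  have e0 : HasFDerivAt (fun q : ℝ × (ℝ × ℝ) => F0 q.2)
      ((fderiv ℝ F0 q.2).comp (ContinuousLinearMap.snd ℝ ℝ (ℝ × ℝ))) q :=
    HasFDerivAt.comp (g := F0) q (h0.differentiable (by simp) q.2).hasFDerivAt hasFDerivAt_snd
  have e1 : HasFDerivAt (fun q : ℝ × (ℝ × ℝ) => F1 q.2)
      ((fderiv ℝ F1 q.2).comp (ContinuousLinearMap.snd ℝ ℝ (ℝ × ℝ))) q :=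
    HasFDerivAt.comp (g := F1) q (h1.differentiable (by simp) q.2).hasFDerivAt hasFDerivAt_snd
  have e2 : HasFDerivAt (fun q : ℝ × (ℝ × ℝ) => q.1) (ContinuousLinearMap.fst ℝ ℝ (ℝ × ℝ)) q :=
    hasFDerivAt_fst
  have e3 := e0.add (e2.smul (e1.sub e0))
  have e4 : fderiv ℝ (line F0 F1) q = _ := e3.fderiv
  rw [e4]
  simp [add_assoc]

lemma swap01 {f : ℝ → ℝ → ℝ} (hf : Continuous (Function.uncurry f)) :
    ∫ s in (0:ℝ)..1, ∫ t in (0:ℝ)..1, f s t = ∫ t in (0:ℝ)..1, ∫ s in (0:ℝ)..1, f s t := by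
  apply MeasureTheory.intervalIntegral_intervalIntegral_swap
  exact (hf.continuousOn.integrableOn_compact
    ((isCompact_uIcc (a := (0:ℝ)) (b := 1)).prod (isCompact_uIcc (a := (0:ℝ)) (b := 1)))).mono_set
    (prod_mono uIoc_subset_uIcc uIoc_subset_uIcc)

lemma ftc {Q : Type} [NormedAddCommGroup Q] [NormedSpace ℝ Q] {G : Q → ℝ} (hG : ContDiff ℝ ∞ G)
    (p v : Q) : ∫ r in (0:ℝ)..1, fderiv ℝ G (p + r • v) v = G (p + v) - G p := by
  have hd : ∀ r : ℝ, HasDerivAt (fun r : ℝ => G (p + r • v)) (fderiv ℝ G (p + r • v) v) r := by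
    intro r
    have h1 : HasDerivAt (fun r : ℝ => p + r • v) v r := by
      simpa using ((hasDerivAt_id r).smul_const v).const_add p
    exact HasFDerivAt.comp_hasDerivAt (l := G) r (hG.differentiable (by simp) _).hasFDerivAt h1
  have hc : Continuous (fun r : ℝ => fderiv ℝ G (p + r • v) v) := by
    have h1 : Continuous (fderiv ℝ G) := hG.continuous_fderiv (by simp)
    exact (h1.comp (by fun_prop : Continuous (fun r : ℝ => p + r • v))).clm_apply continuous_const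
  rw [integral_eq_sub_of_hasDerivAt (fun r _ => hd r) (hc.intervalIntegrable _ _)]
  simp

lemma int_congr {f g : ℝ → ℝ} (h : ∀ x ∈ Icc (0:ℝ) 1, f x = g x) :
    ∫ x in (0:ℝ)..1, f x = ∫ x in (0:ℝ)..1, g x := by
  apply intervalIntegral.integral_congr
  intro x hx
  rw [uIcc_of_le zero_le_one] at hx
  exact h x hx

lemma int_zero {f : ℝ → ℝ} (h : ∀ x ∈ Icc (0:ℝ) 1, f x = 0) : ∫ x in (0:ℝ)..1, f x = 0 := by
  rw [int_congr h]
  simp

lemma int_sub {f g : ℝ → ℝ} (hf : Continuous f) (hg : Continuous g) :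
    ∫ x in (0:ℝ)..1, (f x - g x) = (∫ x in (0:ℝ)..1, f x) - ∫ x in (0:ℝ)..1, g x :=
  intervalIntegral.integral_sub (hf.intervalIntegrable _ _) (hg.intervalIntegrable _ _)

lemma int_neg_sub {f g : ℝ → ℝ} (hf : Continuous f) (hg : Continuous g) :
    ∫ x in (0:ℝ)..1, (- f x - g x) = - (∫ x in (0:ℝ)..1, f x) - ∫ x in (0:ℝ)..1, g x := by
  have := int_sub (f := fun x => - f x) hf.neg hg
  rw [this, intervalIntegral.integral_neg]

lemma cont_int {X : Type} [TopologicalSpace X] {f : X → ℝ → ℝ}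
    (hf : Continuous (fun p : X × ℝ => f p.1 p.2)) :
    Continuous (fun x => ∫ t in (0:ℝ)..1, f x t) :=
  intervalIntegral.continuous_parametric_intervalIntegral_of_continuous' (f := f) hf 0 1

/-- Homotopy invariance of the area along a straight line homotopy. -/
theorem area_eq_of_line {Ω : E → E →L[ℝ] E →L[ℝ] ℝ} (hw : ContDiff ℝ ∞ Ω)
    (halt : ∀ x u v, Ω x u v = - Ω x v u) {N : Set E}
    (hcl : ∀ x ∈ N, ∀ u v w, fderiv ℝ Ω x u v w + fderiv ℝ Ω x v w u + fderiv ℝ Ω x w u v = 0)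
    {F0 F1 : ℝ × ℝ → E} (h0 : ContDiff ℝ ∞ F0) (h1 : ContDiff ℝ ∞ F1)
    (hmem : ∀ r ∈ Icc (0:ℝ) 1, ∀ s ∈ Icc (0:ℝ) 1, ∀ t ∈ Icc (0:ℝ) 1, line F0 F1 (r, (s, t)) ∈ N)
    (hbd : ∀ r ∈ Icc (0:ℝ) 1, ∀ s ∈ Icc (0:ℝ) 1, ∀ t ∈ Icc (0:ℝ) 1,
      (s = 0 ∨ s = 1 ∨ t = 0 ∨ t = 1) → ∀ v,
      Ω (line F0 F1 (r, (s, t))) (F1 (s, t) - F0 (s, t)) v = 0) :
    area Ω F1 = area Ω F0 := by
  set U := line F0 F1 with hUdef
  have hU : ContDiff ℝ ∞ U := contDiff_line h0 h1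
  set g := pb Ω U (0, (1, 0)) (0, (0, 1)) with hg
  set gs := pb Ω U (0, (0, 1)) (1, (0, 0)) with hgs
  set gt := pb Ω U (1, (0, 0)) (0, (1, 0)) with hgt
  have cg : ContDiff ℝ ∞ g := contDiff_pb hw hU _ _
  have cgs : ContDiff ℝ ∞ gs := contDiff_pb hw hU _ _
  have cgt : ContDiff ℝ ∞ gt := contDiff_pb hw hU _ _
  have key : ∀ r ∈ Icc (0:ℝ) 1, ∀ s ∈ Icc (0:ℝ) 1, ∀ t ∈ Icc (0:ℝ) 1,
      fderiv ℝ g (r, (s, t)) (1, (0, 0)) = - fderiv ℝ gs (r, (s, t)) (0, (1, 0))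
        - fderiv ℝ gt (r, (s, t)) (0, (0, 1)) := by
    intro r hr s hs t ht
    have := cyc (Ω := Ω) (U := U) (p := (r, (s, t))) (hU.contDiffAt.of_le (by norm_cast))
      (hw.differentiable (by simp) _) (halt _) (hcl _ (hmem r hr s hs t ht))
      (1, (0, 0)) (0, (1, 0)) (0, (0, 1))
    linarith
  -- values of g at the two ends
  have g1 : ∀ s t, g (1, (s, t)) = pb Ω F1 (1, 0) (0, 1) (s, t) := by
    intro s t
    simp only [hg, pb, hUdef, fderiv_line h0 h1]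
    simp [line]
  have g0 : ∀ s t, g (0, (s, t)) = pb Ω F0 (1, 0) (0, 1) (s, t) := by
    intro s t
    simp only [hg, pb, hUdef, fderiv_line h0 h1]
    simp [line]
  have gs0 : ∀ r ∈ Icc (0:ℝ) 1, ∀ s ∈ Icc (0:ℝ) 1, ∀ t ∈ Icc (0:ℝ) 1, (s = 0 ∨ s = 1) →
      gs (r, (s, t)) = 0 := by
    intro r hr s hs t ht h
    have h2 := hbd r hr s hs t ht (by tauto) (fderiv ℝ U (r, (s, t)) (0, (0, 1)))
    have h3 : fderiv ℝ U (r, (s, t)) (1, (0, 0)) = F1 (s, t) - F0 (s, t) := by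
      rw [hUdef, fderiv_line h0 h1]; simp [Prod.mk_zero_zero]
    simp only [hgs, pb]
    rw [halt, h3, h2, neg_zero]
  have gt0 : ∀ r ∈ Icc (0:ℝ) 1, ∀ s ∈ Icc (0:ℝ) 1, ∀ t ∈ Icc (0:ℝ) 1, (t = 0 ∨ t = 1) →
      gt (r, (s, t)) = 0 := by
    intro r hr s hs t ht h
    have h2 := hbd r hr s hs t ht (by tauto) (fderiv ℝ U (r, (s, t)) (0, (1, 0)))
    have h3 : fderiv ℝ U (r, (s, t)) (1, (0, 0)) = F1 (s, t) - F0 (s, t) := by
      rw [hUdef, fderiv_line h0 h1]; simp [Prod.mk_zero_zero]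
    simp only [hgt, pb]
    rw [h3, h2]
  -- continuity of the derivatives
  have ccs : Continuous (fun q : ℝ × (ℝ × ℝ) => fderiv ℝ gs q (0, (1, 0))) :=
    (cgs.continuous_fderiv (by simp)).clm_apply continuous_const
  have cct : Continuous (fun q : ℝ × (ℝ × ℝ) => fderiv ℝ gt q (0, (0, 1))) :=
    (cgt.continuous_fderiv (by simp)).clm_apply continuous_const
  have I01 : ∀ x : ℝ, x ∈ uIcc (0:ℝ) 1 → x ∈ Icc (0:ℝ) 1 := fun x hx => by
    rwa [uIcc_of_le zero_le_one] at hx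
  have Cs : ∀ {X : Type} [TopologicalSpace X] {a b c : X → ℝ}, Continuous a → Continuous b →
      Continuous c → Continuous (fun x => fderiv ℝ gs (a x, (b x, c x)) (0, (1, 0))) := by
    intro X _ a b c ha hb hc
    exact ccs.comp (ha.prodMk (hb.prodMk hc))
  have Ct : ∀ {X : Type} [TopologicalSpace X] {a b c : X → ℝ}, Continuous a → Continuous b →
      Continuous c → Continuous (fun x => fderiv ℝ gt (a x, (b x, c x)) (0, (0, 1))) := by
    intro X _ a b c ha hb hc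
    exact cct.comp (ha.prodMk (hb.prodMk hc))
  -- FTC in r
  have f1 : ∀ s ∈ Icc (0:ℝ) 1, ∀ t ∈ Icc (0:ℝ) 1, g (1, (s, t)) - g (0, (s, t)) =
      - (∫ r in (0:ℝ)..1, fderiv ℝ gs (r, (s, t)) (0, (1, 0)))
      - ∫ r in (0:ℝ)..1, fderiv ℝ gt (r, (s, t)) (0, (0, 1)) := by
    intro s hs t ht
    have e1 := ftc cg ((0, (s, t)) : ℝ × (ℝ × ℝ)) (1, (0, 0))
    simp only [Prod.smul_mk, smul_eq_mul, mul_one, mul_zero, Prod.mk_add_mk, zero_add,
      add_zero] at e1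
    rw [← e1, ← int_neg_sub (Cs (a := fun r : ℝ => r) continuous_id continuous_const continuous_const)
      (Ct (a := fun r : ℝ => r) continuous_id continuous_const continuous_const)]
    exact int_congr fun r hr => key r hr s hs t ht
  -- the two boundary integrals vanish
  have f2 : ∫ s in (0:ℝ)..1, ∫ t in (0:ℝ)..1, ∫ r in (0:ℝ)..1,
      fderiv ℝ gt (r, (s, t)) (0, (0, 1)) = 0 := by
    apply int_zero
    intro s hs
    rw [swap01 (f := fun t r => fderiv ℝ gt (r, (s, t)) (0, (0, 1)))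
      (Ct (a := fun p : ℝ × ℝ => p.2) (b := fun _ => s) (c := fun p => p.1) continuous_snd
        continuous_const continuous_fst)]
    apply int_zero
    intro r hr
    have e1 := ftc cgt ((r, (s, 0)) : ℝ × (ℝ × ℝ)) (0, (0, 1))
    simp only [Prod.smul_mk, smul_eq_mul, mul_one, mul_zero, Prod.mk_add_mk, zero_add,
      add_zero] at e1
    rw [e1, gt0 r hr s hs 1 (by simp) (Or.inr rfl), gt0 r hr s hs 0 (by simp) (Or.inl rfl),
      sub_zero]
  have cJs : Continuous (fun p : ℝ × ℝ => ∫ r in (0:ℝ)..1,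
      fderiv ℝ gs (r, (p.1, p.2)) (0, (1, 0))) :=
    cont_int (Cs (a := fun p : (ℝ × ℝ) × ℝ => p.2) (b := fun p => p.1.1) (c := fun p => p.1.2)
      (by fun_prop) (by fun_prop) (by fun_prop))
  have cJt : Continuous (fun p : ℝ × ℝ => ∫ r in (0:ℝ)..1,
      fderiv ℝ gt (r, (p.1, p.2)) (0, (0, 1))) :=
    cont_int (Ct (a := fun p : (ℝ × ℝ) × ℝ => p.2) (b := fun p => p.1.1) (c := fun p => p.1.2)
      (by fun_prop) (by fun_prop) (by fun_prop))
  have f3 : ∫ s in (0:ℝ)..1, ∫ t in (0:ℝ)..1, ∫ r in (0:ℝ)..1,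
      fderiv ℝ gs (r, (s, t)) (0, (1, 0)) = 0 := by
    rw [swap01 (f := fun s t => ∫ r in (0:ℝ)..1, fderiv ℝ gs (r, (s, t)) (0, (1, 0))) cJs]
    apply int_zero
    intro t ht
    rw [swap01 (f := fun s r => fderiv ℝ gs (r, (s, t)) (0, (1, 0)))
      (Cs (a := fun p : ℝ × ℝ => p.2) (b := fun p => p.1) (c := fun _ => t) continuous_snd
        continuous_fst continuous_const)]
    apply int_zero
    intro r hr
    have e1 := ftc cgs ((r, (0, t)) : ℝ × (ℝ × ℝ)) (0, (1, 0))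
    simp only [Prod.smul_mk, smul_eq_mul, mul_one, mul_zero, Prod.mk_add_mk, zero_add,
      add_zero] at e1
    rw [e1, gs0 r hr 1 (by simp) t ht (Or.inr rfl), gs0 r hr 0 (by simp) t ht (Or.inl rfl),
      sub_zero]
  have cI : ∀ F : ℝ × ℝ → E, ContDiff ℝ ∞ F →
      Continuous (fun p : ℝ × ℝ => pb Ω F (1, 0) (0, 1) (p.1, p.2)) :=
    fun F hF => (contDiff_pb hw hF _ _).continuous
  have slice : ∀ {f : ℝ × ℝ → ℝ} (s : ℝ), Continuous f → Continuous (fun t => f (s, t)) :=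
    fun s hf => hf.comp (by fun_prop : Continuous (fun t : ℝ => (s, t)))
  have e5 : area Ω F1 - area Ω F0 = 0 := by
    unfold area
    rw [← int_sub (cont_int (cI F1 h1)) (cont_int (cI F0 h0))]
    have e6 : ∀ s ∈ Icc (0:ℝ) 1, ((∫ t in (0:ℝ)..1, pb Ω F1 (1, 0) (0, 1) (s, t))
        - ∫ t in (0:ℝ)..1, pb Ω F0 (1, 0) (0, 1) (s, t)) =
        - (∫ t in (0:ℝ)..1, ∫ r in (0:ℝ)..1, fderiv ℝ gs (r, (s, t)) (0, (1, 0)))
        - ∫ t in (0:ℝ)..1, ∫ r in (0:ℝ)..1, fderiv ℝ gt (r, (s, t)) (0, (0, 1)) := by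
      intro s hs
      rw [← int_sub (slice s (cI F1 h1)) (slice s (cI F0 h0)),
        ← int_neg_sub (slice s cJs) (slice s cJt)]
      apply int_congr
      intro t ht
      rw [← f1 s hs t ht, g1, g0]
    rw [int_congr e6, int_neg_sub (cont_int cJs) (cont_int cJt), f2, f3]
    simp
  linarith

end Pool.Agent.D0H86.Flux
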