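import Pool.Agent.D0H86.Flux.VF

set_option autoImplicit false
set_option maxSynthPendingDepth 3

open Set Filter Topology MeasureTheory
open scoped ContDiff

namespace Pool.Agent.D0H86.Flux

/-- the model space `ℝ⁴` with coordinates `(x, y, z, w)` -/
abbrev V := ℝ × ℝ × ℝ × ℝ

noncomputable def px : V →L[ℝ] ℝ := ContinuousLinearMap.fst ℝ ℝ (ℝ × ℝ × ℝ)
noncomputable def py : V →L[ℝ] ℝ :=
  (ContinuousLinearMap.fst ℝ ℝ (ℝ × ℝ)).comp (ContinuousLinearMap.snd ℝ ℝ (ℝ × ℝ × ℝ))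
noncomputable def pz : V →L[ℝ] ℝ :=
  ((ContinuousLinearMap.fst ℝ ℝ ℝ).comp (ContinuousLinearMap.snd ℝ ℝ (ℝ × ℝ))).comp
    (ContinuousLinearMap.snd ℝ ℝ (ℝ × ℝ × ℝ))
noncomputable def pw : V →L[ℝ] ℝ :=
  ((ContinuousLinearMap.snd ℝ ℝ ℝ).comp (ContinuousLinearMap.snd ℝ ℝ (ℝ × ℝ))).comp
    (ContinuousLinearMap.snd ℝ ℝ (ℝ × ℝ × ℝ))

@[simp] lemma px_apply (p : V) : px p = p.1 := rfl
@[simp] lemma py_apply (p : V) : py p = p.2.1 := rfl
@[simp] lemma pz_apply (p : V) : pz p = p.2.2.1 := rfl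
@[simp] lemma pw_apply (p : V) : pw p = p.2.2.2 := rfl

/-- wedge product of two covectors -/
noncomputable def wedge (α β : V →L[ℝ] ℝ) : V →L[ℝ] V →L[ℝ] ℝ :=
  α.smulRight β - β.smulRight α

@[simp] lemma wedge_apply (α β : V →L[ℝ] ℝ) (u v : V) :
    wedge α β u v = α u * β v - β u * α v := by
  simp [wedge]

/-- the step function `f` -/
noncomputable def ff (z : ℝ) : ℝ := Real.smoothTransition z + √2 * Real.smoothTransition (z - 2)

/-- its derivative -/
noncomputable def kk : ℝ → ℝ := deriv ff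

lemma contDiff_ff : ContDiff ℝ ∞ ff := by
  unfold ff
  exact Real.smoothTransition.contDiff.add
    (contDiff_const.mul (Real.smoothTransition.contDiff.comp (contDiff_id.sub contDiff_const)))

lemma contDiff_kk : ContDiff ℝ ∞ kk := by
  have := contDiff_infty_iff_deriv.1 contDiff_ff
  exact this.2

lemma ff_of_lt {z : ℝ} (h : z ≤ 0) : ff z = 0 := by
  rw [ff, Real.smoothTransition.zero_of_nonpos h, Real.smoothTransition.zero_of_nonpos (by linarith)]
  simp

lemma ff_mid {z : ℝ} (h : 1 ≤ z) (h' : z ≤ 2) : ff z = 1 := by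
  rw [ff, Real.smoothTransition.one_of_one_le h, Real.smoothTransition.zero_of_nonpos (by linarith)]
  simp

lemma ff_top {z : ℝ} (h : 3 ≤ z) : ff z = 1 + √2 := by
  rw [ff, Real.smoothTransition.one_of_one_le (by linarith),
    Real.smoothTransition.one_of_one_le (by linarith)]
  simp

/-- the region of the `z`-line where `f` is locally constant -/
def gap (z : ℝ) : Prop := z < 0 ∨ (1 < z ∧ z < 2) ∨ 3 < z

lemma gap_eventually {z : ℝ} (h : gap z) : ∀ᶠ y in 𝓝 z, gap y := by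
  rcases h with h | h | h
  · filter_upwards [Iio_mem_nhds h] with y hy using Or.inl hy
  · filter_upwards [Ioo_mem_nhds h.1 h.2] with y hy using Or.inr (Or.inl hy)
  · filter_upwards [Ioi_mem_nhds h] with y hy using Or.inr (Or.inr hy)

lemma kk_gap {z : ℝ} (h : gap z) : kk z = 0 := by
  rcases h with h | h | h
  · have : ff =ᶠ[𝓝 z] fun _ => 0 := by
      filter_upwards [Iio_mem_nhds h] with y hy using ff_of_lt (le_of_lt hy)
    rw [kk, this.deriv_eq]; simp
  · have : ff =ᶠ[𝓝 z] fun _ => 1 := by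
      filter_upwards [Ioo_mem_nhds h.1 h.2] with y hy using ff_mid hy.1.le hy.2.le
    rw [kk, this.deriv_eq]; simp
  · have : ff =ᶠ[𝓝 z] fun _ => 1 + √2 := by
      filter_upwards [Ioi_mem_nhds h] with y hy using ff_top (le_of_lt hy)
    rw [kk, this.deriv_eq]; simp

/-- a smooth function equal to `1/r` for `r ≥ 1` -/
noncomputable def kap (r : ℝ) : ℝ := (1 + (r - 1) * Real.smoothTransition r)⁻¹

lemma den_pos (r : ℝ) : 0 < 1 + (r - 1) * Real.smoothTransition r := by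
  rcases le_or_gt r 0 with h | h
  · rw [Real.smoothTransition.zero_of_nonpos h]; simp
  · rcases le_or_gt 1 r with h' | h'
    · have := Real.smoothTransition.nonneg r
      nlinarith
    · have h1 := Real.smoothTransition.le_one r
      have h2 := Real.smoothTransition.nonneg r
      nlinarith

lemma contDiff_kap : ContDiff ℝ ∞ kap := by
  unfold kap
  refine ContDiff.inv ?_ fun r => (den_pos r).ne'
  exact contDiff_const.add ((contDiff_id.sub contDiff_const).mul Real.smoothTransition.contDiff)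

lemma kap_of_ge {r : ℝ} (h : 1 ≤ r) : kap r = r⁻¹ := by
  rw [kap, Real.smoothTransition.one_of_one_le h]; ring_nf

lemma kap_rel {r : ℝ} (h : 1 < r) : kap r + r * deriv kap r = 0 := by
  have h0 : r ≠ 0 := by positivity
  have : kap =ᶠ[𝓝 r] fun y => y⁻¹ := by
    filter_upwards [Ioi_mem_nhds h] with y hy using kap_of_ge (le_of_lt hy)
  rw [this.deriv_eq, kap_of_ge h.le, deriv_inv]
  field_simp
  norm_num

noncomputable def rr (p : V) : ℝ := p.1 ^ 2 + p.2.1 ^ 2
noncomputable def aa (p : V) : ℝ := - (kk p.2.2.1 * p.2.1 * kap (rr p))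
noncomputable def bb (p : V) : ℝ := kk p.2.2.1 * p.1 * kap (rr p)

lemma contDiff_rr : ContDiff ℝ ∞ rr := by unfold rr; fun_prop

lemma contDiff_kz : ContDiff ℝ ∞ (fun p : V => kk p.2.2.1) := contDiff_kk.comp (by fun_prop)
lemma contDiff_kr : ContDiff ℝ ∞ (fun p : V => kap (rr p)) := contDiff_kap.comp contDiff_rr

lemma contDiff_aa : ContDiff ℝ ∞ aa := by
  unfold aa
  exact ((contDiff_kz.mul (by fun_prop)).mul contDiff_kr).neg

lemma contDiff_bb : ContDiff ℝ ∞ bb := by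
  unfold bb
  exact (contDiff_kz.mul (by fun_prop)).mul contDiff_kr

/-- the non-standard part of the symplectic form -/
noncomputable def Om1 (p : V) : V →L[ℝ] V →L[ℝ] ℝ := aa p • wedge pz px + bb p • wedge pz py

/-- the standard symplectic form -/
noncomputable def Om0 : V →L[ℝ] V →L[ℝ] ℝ := wedge px py + wedge pz pw

/-- the symplectic form -/
noncomputable def Om (p : V) : V →L[ℝ] V →L[ℝ] ℝ := Om0 + Om1 p

lemma contDiff_Om1 : ContDiff ℝ ∞ Om1 := by
  unfold Om1
  exact (contDiff_aa.smul contDiff_const).add (contDiff_bb.smul contDiff_const)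

lemma contDiff_Om : ContDiff ℝ ∞ Om := by
  unfold Om
  exact contDiff_const.add contDiff_Om1

lemma Om0_apply (u v : V) : Om0 u v = u.1 * v.2.1 - u.2.1 * v.1 +
    (u.2.2.1 * v.2.2.2 - u.2.2.2 * v.2.2.1) := by
  simp [Om0]

lemma Om1_apply (p u v : V) : Om1 p u v = aa p * (u.2.2.1 * v.1 - u.1 * v.2.2.1)
    + bb p * (u.2.2.1 * v.2.1 - u.2.1 * v.2.2.1) := by
  simp [Om1]

lemma Om_apply (p u v : V) : Om p u v = u.1 * v.2.1 - u.2.1 * v.1 +
    (u.2.2.1 * v.2.2.2 - u.2.2.2 * v.2.2.1) + (aa p * (u.2.2.1 * v.1 - u.1 * v.2.2.1)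
    + bb p * (u.2.2.1 * v.2.1 - u.2.1 * v.2.2.1)) := by
  rw [Om, add_apply, add_apply, Om0_apply, Om1_apply]

lemma Om_alt (p u v : V) : Om p u v = - Om p v u := by
  simp only [Om_apply]; ring

lemma Om1_alt (p u v : V) : Om1 p u v = - Om1 p v u := by
  simp only [Om1_apply]; ring

lemma Om0_alt (u v : V) : Om0 u v = - Om0 v u := by
  simp only [Om0_apply]; ring

/-- the big open set: the complement of two solid closed cylinders -/
def NN : Set V := {p | 1 < rr p ∨ gap p.2.2.1}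

lemma isOpen_NN : IsOpen NN := by
  have h1 : IsOpen {p : V | 1 < rr p} := isOpen_lt continuous_const contDiff_rr.continuous
  have h2 : IsOpen {z : ℝ | gap z} := isOpen_iff_mem_nhds.2 fun z hz => gap_eventually hz
  have h3 : Continuous (fun p : V => p.2.2.1) := by fun_prop
  exact h1.union (h2.preimage h3)

lemma hasFDerivAt_rr (p : V) : HasFDerivAt rr ((2 * p.1) • px + (2 * p.2.1) • py) p := by
  have h1 : HasFDerivAt (fun p : V => p.1) px p := px.hasFDerivAt
  have h2 : HasFDerivAt (fun p : V => p.2.1) py p := py.hasFDerivAt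
  have h := (h1.pow 2).add (h2.pow 2)
  have e : rr = ((fun p : V => p.1 ^ 2) + fun p : V => p.2.1 ^ 2) := rfl
  rw [e]
  refine h.congr_fderiv ?_
  ext <;> simp

lemma fderiv_kz (p : V) : HasFDerivAt (fun p : V => kk p.2.2.1) (deriv kk p.2.2.1 • pz) p := by
  have h1 : HasFDerivAt (fun p : V => p.2.2.1) pz p := pz.hasFDerivAt
  have h2 : HasDerivAt kk (deriv kk p.2.2.1) p.2.2.1 :=
    (contDiff_kk.differentiable (by simp) _).hasDerivAt
  exact h2.comp_hasFDerivAt p h1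

lemma fderiv_kr (p : V) : HasFDerivAt (fun p : V => kap (rr p))
    (deriv kap (rr p) • ((2 * p.1) • px + (2 * p.2.1) • py)) p := by
  have h2 : HasDerivAt kap (deriv kap (rr p)) (rr p) :=
    (contDiff_kap.differentiable (by simp) _).hasDerivAt
  exact h2.comp_hasFDerivAt p (hasFDerivAt_rr p)

lemma fderiv_aa (p u : V) : fderiv ℝ aa p u = - (deriv kk p.2.2.1 * u.2.2.1 * p.2.1 * kap (rr p)
    + kk p.2.2.1 * u.2.1 * kap (rr p)
    + kk p.2.2.1 * p.2.1 * (deriv kap (rr p) * (2 * p.1 * u.1 + 2 * p.2.1 * u.2.1))) := by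
  have h2 : HasFDerivAt (fun p : V => p.2.1) py p := py.hasFDerivAt
  have h := (((fderiv_kz p).mul h2).mul (fderiv_kr p)).neg
  have e : fderiv ℝ aa p = _ := h.fderiv
  rw [e]
  simp
  ring

lemma fderiv_bb (p u : V) : fderiv ℝ bb p u = deriv kk p.2.2.1 * u.2.2.1 * p.1 * kap (rr p)
    + kk p.2.2.1 * u.1 * kap (rr p)
    + kk p.2.2.1 * p.1 * (deriv kap (rr p) * (2 * p.1 * u.1 + 2 * p.2.1 * u.2.1)) := by
  have h2 : HasFDerivAt (fun p : V => p.1) px p := px.hasFDerivAt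
  have h := (((fderiv_kz p).mul h2).mul (fderiv_kr p))
  have e : fderiv ℝ bb p = _ := h.fderiv
  rw [e]
  simp
  ring

lemma fderiv_Om1 (p u v w : V) : fderiv ℝ Om1 p u v w =
    fderiv ℝ aa p u * (v.2.2.1 * w.1 - v.1 * w.2.2.1)
    + fderiv ℝ bb p u * (v.2.2.1 * w.2.1 - v.2.1 * w.2.2.1) := by
  have h1 : HasFDerivAt aa (fderiv ℝ aa p) p :=
    (contDiff_aa.differentiable (by simp) p).hasFDerivAt
  have h2 : HasFDerivAt bb (fderiv ℝ bb p) p :=
    (contDiff_bb.differentiable (by simp) p).hasFDerivAt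
  have h := (h1.smul_const (wedge pz px)).add (h2.smul_const (wedge pz py))
  have e : fderiv ℝ Om1 p = _ := h.fderiv
  rw [e]
  simp

lemma fderiv_Om (p : V) : fderiv ℝ Om p = fderiv ℝ Om1 p := by
  have h1 : HasFDerivAt Om1 (fderiv ℝ Om1 p) p :=
    (contDiff_Om1.differentiable (by simp) p).hasFDerivAt
  exact (h1.const_add Om0).fderiv

lemma key_rel {p : V} (hp : p ∈ NN) :
    kk p.2.2.1 * (kap (rr p) + rr p * deriv kap (rr p)) = 0 := by
  rcases hp with h | h
  · rw [kap_rel h, mul_zero]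
  · rw [kk_gap h, zero_mul]

lemma Om1_closed {p : V} (hp : p ∈ NN) (u v w : V) :
    fderiv ℝ Om1 p u v w + fderiv ℝ Om1 p v w u + fderiv ℝ Om1 p w u v = 0 := by
  have h := key_rel hp
  simp only [fderiv_Om1, fderiv_aa, fderiv_bb]
  have hr : rr p = p.1 ^ 2 + p.2.1 ^ 2 := rfl
  have h' : kk p.2.2.1 * (kap (rr p) + (p.1 ^ 2 + p.2.1 ^ 2) * deriv kap (rr p)) = 0 := by
    rw [← hr]; exact h
  linear_combination (2 * (u.1 * (v.2.2.1 * w.2.1 - v.2.1 * w.2.2.1)
    + v.1 * (w.2.2.1 * u.2.1 - w.2.1 * u.2.2.1) + w.1 * (u.2.2.1 * v.2.1 - u.2.1 * v.2.2.1))) * h'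

lemma Om_closed {p : V} (hp : p ∈ NN) (u v w : V) :
    fderiv ℝ Om p u v w + fderiv ℝ Om p v w u + fderiv ℝ Om p w u v = 0 := by
  rw [fderiv_Om]; exact Om1_closed hp u v w

lemma Om_nondeg (p u : V) (h : ∀ v, Om p u v = 0) : u = 0 := by
  have h4 := h (0, 0, 0, 1)
  have h3 := h (0, 0, 1, 0)
  have h2 := h (0, 1, 0, 0)
  have h1 := h (1, 0, 0, 0)
  simp [Om_apply] at h1 h2 h3 h4
  obtain ⟨u1, u2, u3, u4⟩ := u
  simp at h1 h2 h3 h4
  subst h4
  simp at h1 h2 h3
  subst h1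
  subst h2
  simp at h3
  subst h3
  rfl

end Pool.Agent.D0H86.Flux
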