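import Pool.Agent.D0H86.Flux.Model

set_option autoImplicit false
set_option maxSynthPendingDepth 3

open Set Filter Topology MeasureTheory
open scoped ContDiff

namespace Pool.Agent.D0H86.Flux

/-- the Hamiltonian vector field of `H` -/
noncomputable def XH (H : V → ℝ) (p : V) : V :=
  (fderiv ℝ H p (0, 1, 0, 0) - bb p * fderiv ℝ H p (0, 0, 0, 1),
   - fderiv ℝ H p (1, 0, 0, 0) + aa p * fderiv ℝ H p (0, 0, 0, 1),
   fderiv ℝ H p (0, 0, 0, 1),
   - fderiv ℝ H p (0, 0, 1, 0) - aa p * fderiv ℝ H p (0, 1, 0, 0)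
    + bb p * fderiv ℝ H p (1, 0, 0, 0))

lemma clm_V (D : V →L[ℝ] ℝ) (v : V) : D v = v.1 * D (1, 0, 0, 0) + v.2.1 * D (0, 1, 0, 0)
    + v.2.2.1 * D (0, 0, 1, 0) + v.2.2.2 * D (0, 0, 0, 1) := by
  have e : v = v.1 • ((1, 0, 0, 0) : V) + v.2.1 • ((0, 1, 0, 0) : V)
      + v.2.2.1 • ((0, 0, 1, 0) : V) + v.2.2.2 • ((0, 0, 0, 1) : V) := by
    ext <;> simp
  conv_lhs => rw [e]
  simp only [map_add, map_smul, smul_eq_mul]

lemma XH_spec (H : V → ℝ) (p v : V) : Om p (XH H p) v = fderiv ℝ H p v := by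
  rw [clm_V (fderiv ℝ H p) v, Om_apply, XH]
  ring

lemma XH_congr {H K : V → ℝ} {p : V} (h : H =ᶠ[𝓝 p] K) : XH H p = XH K p := by
  simp only [XH, h.fderiv_eq]

lemma XH_eq_zero {H : V → ℝ} {p : V} (h : fderiv ℝ H p = 0) : XH H p = 0 := by
  simp only [XH, h]
  simp

lemma contDiff_XH {H : V → ℝ} (hH : ContDiff ℝ ∞ H) : ContDiff ℝ ∞ (XH H) := by
  have h : ∀ e : V, ContDiff ℝ ∞ (fun p => fderiv ℝ H p e) := fun e =>
    (hH.fderiv_right (m := ∞) (by simp)).clm_apply contDiff_const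
  unfold XH
  exact ((h _).sub (contDiff_bb.mul (h _))).prodMk
    (((h _).neg.add (contDiff_aa.mul (h _))).prodMk ((h _).prodMk
      (((h _).neg.sub (contDiff_aa.mul (h _))).add (contDiff_bb.mul (h _)))))

lemma XH_off {H : V → ℝ} {L : Set V} (hL : IsCompact L) (h : ∀ x ∉ L, H x = 0) :
    ∀ x ∉ L, XH H x = 0 := by
  intro x hx
  apply XH_eq_zero
  have : H =ᶠ[𝓝 x] fun _ => 0 := by
    filter_upwards [hL.isClosed.isOpen_compl.mem_nhds hx] with y hy using h y hy
  rw [this.fderiv_eq]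
  simp

/-- flows of compactly supported Hamiltonians in `NN` -/
theorem base_flow {H : V → ℝ} (hH : ContDiff ℝ ∞ H) {L : Set V} (hL : IsCompact L)
    (hLN : L ⊆ NN) (h0 : ∀ x ∉ L, H x = 0) :
    ∃ G : ℝ → V → V, HF NN Om (fun _ => H) G (fun t => G (-t)) ∧ Cpt NN (fun _ => H) G ∧
      (∀ γ : ℝ → V, (∀ t ∈ Icc (0:ℝ) 1, HasDerivAt γ (XH H (γ t)) t) → G 1 (γ 0) = γ 1) ∧
      (∀ x, XH H x = 0 → ∀ t, G t x = x) :=
  HF.of_vf hH (contDiff_XH hH) (XH_spec H) hL hLN (XH_off hL h0) h0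

theorem presOm {H : ℝ → V → ℝ} {φ φi : ℝ → V → V} (h : HF NN Om H φ φi) (t : ℝ) (x : V)
    (hx : x ∈ NN) (u v : V) :
    Om (φ t x) (fderiv ℝ (φ t) x u) (fderiv ℝ (φ t) x v) = Om x u v :=
  h.pres isOpen_NN contDiff_Om Om_alt (fun _ hx => Om_closed hx) t hx u v

/-- the circle action -/
noncomputable def rot (t : ℝ) (p : V) : V :=
  (Real.cos t * p.1 - Real.sin t * p.2.1, Real.sin t * p.1 + Real.cos t * p.2.1, p.2.2)

/-- the Hamiltonian of the circle action -/
noncomputable def H0 (p : V) : ℝ := - (rr p / 2 + ff p.2.2.1)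

lemma contDiff_H0 : ContDiff ℝ ∞ H0 := by
  unfold H0
  exact ((contDiff_rr.div_const 2).add (contDiff_ff.comp (by fun_prop))).neg

lemma contDiff_rot : ContDiff ℝ ∞ (fun q : ℝ × V => rot q.1 q.2) := by
  unfold rot
  have hc : ContDiff ℝ ∞ (fun q : ℝ × V => Real.cos q.1) := Real.contDiff_cos.comp contDiff_fst
  have hs : ContDiff ℝ ∞ (fun q : ℝ × V => Real.sin q.1) := Real.contDiff_sin.comp contDiff_fst
  have h1 : ContDiff ℝ ∞ (fun q : ℝ × V => q.2.1) := by fun_prop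
  have h2 : ContDiff ℝ ∞ (fun q : ℝ × V => q.2.2.1) := by fun_prop
  have h3 : ContDiff ℝ ∞ (fun q : ℝ × V => q.2.2.2) := by fun_prop
  exact ((hc.mul h1).sub (hs.mul h2)).prodMk (((hs.mul h1).add (hc.mul h2)).prodMk h3)

lemma rr_rot (t : ℝ) (p : V) : rr (rot t p) = rr p := by
  unfold rr rot
  have := Real.sin_sq_add_cos_sq t
  simp only
  linear_combination (p.1 ^ 2 + p.2.1 ^ 2) * this

lemma rot_add (s t : ℝ) (p : V) : rot (s + t) p = rot s (rot t p) := by
  unfold rot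
  simp only [Real.cos_add, Real.sin_add]
  ext <;> simp <;> ring

lemma rot_zero (p : V) : rot 0 p = p := by
  simp [rot]

lemma rot_neg_rot (t : ℝ) (p : V) : rot (-t) (rot t p) = p := by
  rw [← rot_add]; simp [rot_zero]

lemma rot_rot_neg (t : ℝ) (p : V) : rot t (rot (-t) p) = p := by
  rw [← rot_add]; simp [rot_zero]

lemma H0_rot (t : ℝ) (p : V) : H0 (rot t p) = H0 p := by
  rw [H0, rr_rot, H0]
  rfl

lemma rot_mem {t : ℝ} {p : V} (hp : p ∈ NN) : rot t p ∈ NN := by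
  have : 1 < rr (rot t p) ∨ gap p.2.2.1 := by rw [rr_rot]; exact hp
  exact this

lemma fderiv_H0 (p v : V) : fderiv ℝ H0 p v = - (p.1 * v.1 + p.2.1 * v.2.1 + kk p.2.2.1 * v.2.2.1) := by
  have h1 : HasFDerivAt (fun p : V => p.2.2.1) pz p := pz.hasFDerivAt
  have h2 : HasDerivAt ff (kk p.2.2.1) p.2.2.1 :=
    (contDiff_ff.differentiable (by simp) _).hasDerivAt
  have h3 : HasFDerivAt (fun p : V => ff p.2.2.1) (kk p.2.2.1 • pz) p :=
    HasDerivAt.comp_hasFDerivAt (h₂ := ff) p h2 h1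
  have h4 := (((hasFDerivAt_rr p).const_mul (1 / 2)).add h3).neg
  have e : H0 = -((fun p => 1 / 2 * rr p) + fun p : V => ff p.2.2.1) := by
    funext q; simp [H0]; ring
  rw [e, h4.fderiv]
  simp
  ring

lemma Om_rot {p : V} (hp : p ∈ NN) (v : V) :
    Om p (-p.2.1, p.1, 0, 0) v = fderiv ℝ H0 p v := by
  rw [fderiv_H0, Om_apply]
  have h : kk p.2.2.1 * (kap (rr p) * rr p) = kk p.2.2.1 := by
    rcases hp with h | h
    · rw [kap_of_ge h.le, inv_mul_cancel₀ (by linarith), mul_one]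
    · rw [kk_gap h, zero_mul]
  have hr : rr p = p.1 ^ 2 + p.2.1 ^ 2 := rfl
  have h' : kk p.2.2.1 * (kap (rr p) * (p.1 ^ 2 + p.2.1 ^ 2)) = kk p.2.2.1 := by
    rw [← hr]; exact h
  simp only [aa, bb]
  linear_combination (- v.2.2.1) * h'

theorem HF_rot : HF NN Om (fun _ => H0) rot (fun t => rot (-t)) where
  sH := contDiff_H0.comp contDiff_snd
  sφ := contDiff_rot
  sφi := contDiff_rot.comp ((contDiff_neg.comp contDiff_fst).prodMk contDiff_snd)
  left := rot_neg_rot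
  right := rot_rot_neg
  zero := rot_zero
  maps := fun _ _ hx => rot_mem hx
  mapsi := fun _ _ hx => rot_mem hx
  eqn := by
    intro t x hx v
    have h1 : HasDerivAt (fun s => rot s x) (-(rot t x).2.1, (rot t x).1, 0, 0) t := by
      unfold rot
      have a1 := (((Real.hasDerivAt_cos t).mul_const x.1).sub
        ((Real.hasDerivAt_sin t).mul_const x.2.1))
      have a2 := (((Real.hasDerivAt_sin t).mul_const x.1).add
        ((Real.hasDerivAt_cos t).mul_const x.2.1))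
      have a := a1.prodMk (a2.prodMk (hasDerivAt_const t x.2.2))
      refine a.congr_deriv ?_
      ext <;> simp <;> ring
    rw [h1.deriv]
    exact Om_rot (rot_mem hx) v

lemma rot_dist {t ε : ℝ} {p q : V} (hq1 : q.1 = 0) (hq2 : q.2.1 = 0) (h : dist p q < ε / 2) :
    dist (rot t p) q < ε := by
  have hε : 0 < ε := by
    have := dist_nonneg (x := p) (y := q)
    linarith
  rw [Prod.dist_eq, max_lt_iff, Prod.dist_eq, max_lt_iff, hq1, hq2] at h
  rw [Prod.dist_eq, max_lt_iff, Prod.dist_eq, max_lt_iff, hq1, hq2]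
  obtain ⟨h1, h2, h3⟩ := h
  rw [Real.dist_eq, sub_zero] at h1 h2
  have c1 := Real.abs_cos_le_one t
  have c2 := Real.abs_sin_le_one t
  have b1 : |Real.cos t * p.1| ≤ |p.1| := by
    rw [abs_mul]; nlinarith [abs_nonneg p.1]
  have b2 : |Real.sin t * p.2.1| ≤ |p.2.1| := by
    rw [abs_mul]; nlinarith [abs_nonneg p.2.1]
  have b3 : |Real.sin t * p.1| ≤ |p.1| := by
    rw [abs_mul]; nlinarith [abs_nonneg p.1]
  have b4 : |Real.cos t * p.2.1| ≤ |p.2.1| := by
    rw [abs_mul]; nlinarith [abs_nonneg p.2.1]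
  refine ⟨?_, ?_, ?_⟩
  · rw [Real.dist_eq, sub_zero]
    have := abs_sub (Real.cos t * p.1) (Real.sin t * p.2.1)
    simp only [rot]
    linarith
  · rw [Real.dist_eq, sub_zero]
    have := abs_add_le (Real.sin t * p.1) (Real.cos t * p.2.1)
    simp only [rot]
    linarith
  · simp only [rot]
    linarith

/-- saturation of a compact set by the circle action -/
lemma exists_sat {C : Set V} (hC : IsCompact C) (hCN : C ⊆ NN) :
    ∃ C' : Set V, IsCompact C' ∧ C' ⊆ NN ∧ C ⊆ C' ∧ ∀ x ∉ C', ∀ t, rot t x ∉ C := by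
  let S : Set (ℝ × ℝ) := {q | q.1 ^ 2 + q.2 ^ 2 = 1} ∩ (Icc (-1) 1 ×ˢ Icc (-1) 1)
  have hS : IsCompact S := by
    apply (isCompact_Icc.prod isCompact_Icc).inter_left
    exact isClosed_eq (by fun_prop) continuous_const
  let m : (ℝ × ℝ) × V → V := fun q =>
    (q.1.1 * q.2.1 - q.1.2 * q.2.2.1, q.1.2 * q.2.1 + q.1.1 * q.2.2.1, q.2.2.2)
  have hm : Continuous m := by fun_prop
  refine ⟨m '' (S ×ˢ C), (hS.prod hC).image hm, ?_, ?_, ?_⟩
  · rintro _ ⟨⟨⟨c, s⟩, p⟩, ⟨hcs, hp⟩, rfl⟩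
    have h1 : c ^ 2 + s ^ 2 = 1 := hcs.1
    have h2 : rr (m ((c, s), p)) = rr p := by
      simp only [m, rr]
      linear_combination (p.1 ^ 2 + p.2.1 ^ 2) * h1
    have : 1 < rr (m ((c, s), p)) ∨ gap p.2.2.1 := by rw [h2]; exact hCN hp
    exact this
  · intro p hp
    refine ⟨((1, 0), p), ⟨⟨by simp, by simp⟩, hp⟩, ?_⟩
    simp [m]
  · intro x hx t ht
    apply hx
    refine ⟨((Real.cos (-t), Real.sin (-t)), rot t x), ⟨⟨?_, ⟨?_, ?_⟩, ?_, ?_⟩, ht⟩, ?_⟩
    · exact Real.cos_sq_add_sin_sq _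
    · exact Real.neg_one_le_cos _
    · exact Real.cos_le_one _
    · exact Real.neg_one_le_sin _
    · exact Real.sin_le_one _
    · exact rot_neg_rot t x

/-- The loop obtained from a symplectic diffeomorphism that translates a neighbourhood of a fixed
point to a neighbourhood of `(0, 0, -1, 0)`. -/
theorem exists_loop {K : ℝ → V → ℝ} {θ θi : ℝ → V → V} (h : HF NN Om K θ θi) (c : Cpt NN K θ)
    {z2 κ : ℝ} (hz : ∀ᶠ z in 𝓝 z2, ff z = κ)
    (ht : ∀ᶠ x in 𝓝 ((0, 0, z2, 0) : V), θ 1 x = x + (0, 0, -1 - z2, 0)) :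
    ∃ (H : ℝ → V → ℝ) (φ φi : ℝ → V → V), HF NN Om H φ φi ∧ Cpt NN H φ ∧
      Near (0, 0, -1, 0) κ H φ ∧ ∀ (m : ℤ) x, φ (2 * Real.pi * m) x = x := by
  obtain ⟨g, hg⟩ : ∃ g, g = θ 1 := ⟨_, rfl⟩
  obtain ⟨gi, hgi⟩ : ∃ gi, gi = θi 1 := ⟨_, rfl⟩
  have l : ∀ x, gi (g x) = x := by rw [hg, hgi]; exact h.left 1
  have r : ∀ x, g (gi x) = x := by rw [hg, hgi]; exact h.right 1
  have sg : ContDiff ℝ ∞ g := by rw [hg]; exact smooth_slice h.sφ 1
  have sgi : ContDiff ℝ ∞ gi := by rw [hgi]; exact smooth_slice h.sφi 1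
  have mg : ∀ x ∈ NN, g x ∈ NN := by rw [hg]; exact h.maps 1
  have mgi : ∀ x ∈ NN, gi x ∈ NN := by rw [hgi]; exact h.mapsi 1
  have pg : ∀ x ∈ NN, ∀ u v, Om (g x) (fderiv ℝ g x u) (fderiv ℝ g x v) = Om x u v := by
    rw [hg]; exact fun x hx u v => presOm h 1 x hx u v
  rw [← hg] at ht
  have h3 := (HF_rot.scale (-1)).conj sg sgi l r mg mgi pg
  have h4 := HF_rot.prod (fun t x hx u v => presOm HF_rot t x hx u v) h3
  refine ⟨_, _, _, h4, ?_, ?_, ?_⟩
  · show Cpt NN (fun t x => H0 x + -1 * H0 (gi (rot (-t) x)))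
      (fun t x => rot t (g (rot (-1 * t) (gi x))))
    obtain ⟨C, hC, hCN, hCf⟩ := c
    obtain ⟨C', hC', hCN', hCC, hsat⟩ := exists_sat hC hCN
    have gfix : ∀ x ∉ C, g x = x := fun x hx => by rw [hg]; exact (hCf 1 x hx).2
    have gifix : ∀ x ∉ C, gi x = x := fun x hx => by rw [hgi]; exact h.inv_fix (hCf 1 x hx).2
    refine ⟨C', hC', hCN', ?_⟩
    intro t x hx
    have hx0 : x ∉ C := fun hh => hx (hCC hh)
    constructor
    · beta_reduce
      rw [gifix _ (hsat x hx (-t)), H0_rot]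
      ring
    · beta_reduce
      rw [gifix x hx0, gfix _ (hsat x hx (-1 * t))]
      rw [show -1 * t = -t by ring, rot_rot_neg]
  · show Near (0, 0, -1, 0) κ (fun t x => H0 x + -1 * H0 (gi (rot (-t) x)))
      (fun t x => rot t (g (rot (-1 * t) (gi x))))
    obtain ⟨ε1, hε1, hb1⟩ := Metric.eventually_nhds_iff.1 ht
    obtain ⟨ε2, hε2, hb2⟩ := Metric.eventually_nhds_iff.1 hz
    set ε := min (min ε1 ε2) 1 with hε
    have hεp : 0 < ε := by positivity
    have hεle1 : ε ≤ ε1 := (min_le_left _ _).trans (min_le_left _ _)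
    have hεle2 : ε ≤ ε2 := (min_le_left _ _).trans (min_le_right _ _)
    have hεle3 : ε ≤ 1 := min_le_right _ _
    set p1 : V := (0, 0, -1, 0) with hp1
    set p2 : V := (0, 0, z2, 0) with hp2
    set v : V := (0, 0, -1 - z2, 0) with hv
    have hp12 : p1 - v = p2 := by
      rw [hp1, hv, hp2]; ext <;> simp
    have hrotv : ∀ t (x : V), rot t (x - v) = rot t x - v := by
      intro t x
      rw [hv]; unfold rot; ext <;> simp
    have hgx : ∀ x, dist x p1 < ε → gi x = x - v := by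
      intro x hx
      have : dist (x - v) p2 < ε1 := by
        rw [← hp12, dist_sub_right]; linarith
      have e := hb1 this
      have e' : g (x - v) = x := by rw [e]; abel
      rw [← e', l, e']
    have hmem : Metric.ball p1 (ε / 2) ∈ 𝓝 p1 := Metric.ball_mem_nhds _ (by positivity)
    filter_upwards [hmem] with x hx t
    rw [Metric.mem_ball] at hx
    have hx1 : dist x p1 < ε := by linarith
    have hrx : ∀ s, dist (rot s x) p1 < ε := fun s => rot_dist rfl rfl hx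
    constructor
    · rw [hgx _ (hrx _)]
      have hxz : dist x.2.2.1 (-1) < ε / 2 := by
        refine lt_of_le_of_lt ?_ hx
        rw [Prod.dist_eq, Prod.dist_eq, Prod.dist_eq]
        exact (le_max_left _ _).trans ((le_max_right _ _).trans (le_max_right _ _))
      have f1 : ff x.2.2.1 = 0 := by
        apply ff_of_lt
        rw [Real.dist_eq, abs_lt] at hxz
        linarith
      have f2 : ff (x.2.2.1 - (-1 - z2)) = κ := by
        apply hb2
        rw [Real.dist_eq] at hxz ⊢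
        rw [show x.2.2.1 - (-1 - z2) - z2 = x.2.2.1 - -1 by ring]
        linarith
      rw [← hrotv, H0_rot, H0, H0]
      have e1 : (x - v).2.2.1 = x.2.2.1 - (-1 - z2) := rfl
      have e2 : rr (x - v) = rr x := by
        simp [rr, hv]
      rw [e1, e2, f1, f2]
      ring
    · rw [hgx x hx1, hrotv]
      have e : rot (-1 * t) x - v = rot (-1 * t) x - v := rfl
      have hd : dist (rot (-1 * t) x - v) p2 < ε1 := by
        rw [← hp12, dist_sub_right]
        linarith [hrx (-1 * t)]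
      rw [hb1 hd, sub_add_cancel, show -1 * t = -t by ring, rot_rot_neg]
  · intro m x
    have hr : ∀ (m : ℤ) (x : V), rot (2 * Real.pi * m) x = x := by
      intro m x
      unfold rot
      rw [show 2 * Real.pi * (m : ℝ) = (m : ℝ) * (2 * Real.pi) by ring, Real.cos_int_mul_two_pi]
      have : Real.sin ((m : ℝ) * (2 * Real.pi)) = 0 := by
        have := Real.sin_int_mul_pi (2 * m)
        push_cast at this
        rw [← this]; ring_nf
      rw [this]
      simp
    show rot (2 * Real.pi * m) (g (rot (-1 * (2 * Real.pi * m)) (gi x))) = x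
    rw [hr, show -1 * (2 * Real.pi * (m : ℝ)) = 2 * Real.pi * ((-m : ℤ) : ℝ) by push_cast; ring, hr, r]

end Pool.Agent.D0H86.Flux
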