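import Pool.Agent.D0H86.Flux.HFops

set_option autoImplicit false

open Set Filter Topology MeasureTheory
open scoped ContDiff Manifold

namespace Pool.Agent.D0H86.Flux

variable {E : Type} [NormedAddCommGroup E] [NormedSpace ℝ E]

/-- the flow of a smooth compactly supported vector field -/
theorem exists_flow [CompleteSpace E] (X : E → E) (hX : ContDiff ℝ ∞ X) (hc : HasCompactSupport X) :
    ∃ G : ℝ → E → E, ContDiff ℝ ∞ (fun q : ℝ × E => G q.1 q.2) ∧
      (∀ p, G 0 p = p) ∧ (∀ s t p, G (s + t) p = G s (G t p)) ∧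
      (∀ p t, HasDerivAt (fun t => G t p) (X (G t p)) t) ∧
      (∀ γ : ℝ → E, (∀ t ∈ Icc (0:ℝ) 1, HasDerivAt γ (X (γ t)) t) → G 1 (γ 0) = γ 1) ∧
      (∀ x, X x = 0 → ∀ t, G t x = x) := by
  obtain ⟨K, hK⟩ := hX.lipschitzWith_of_hasCompactSupport hc (by simp)
  obtain ⟨M, hM⟩ := hc.exists_bound_of_continuous hX.continuous
  have hM' : ∀ x, ‖X x‖ ≤ (Real.toNNReal M : NNReal) := fun x => (hM x).trans (Real.le_coe_toNNReal M)
  choose g h0 h1 using fun p => Pool.Agent.GR.Flow.exists_solution hK hM' p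
  have hfl : Pool.Agent.GR.Flow.IsFlowOf X (fun t p => g p t) := ⟨h0, h1⟩
  refine ⟨fun t p => g p t, ?_, h0, fun s t p => hfl.add hK s t p, h1, ?_, ?_⟩
  · rw [contDiff_infty]
    intro m
    have key : ∀ m : ℕ, m ≠ 0 → ContDiff ℝ m (fun q : ℝ × E => g q.2 q.1) := by
      intro m hm
      exact Pool.Agent.GR.Flow.contDiff_flow (X := ⟨X, hX.continuous⟩) hm
        (hX.of_le (by exact_mod_cast le_top)) hK hfl
    exact (key (m + 1) (by omega)).of_le (by exact_mod_cast Nat.le_succ m)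
  · intro γ hγ
    have := ODE_solution_unique (v := fun _ => X) (K := K) (f := fun t => g (γ 0) t) (g := γ)
      (a := 0) (b := 1) (fun _ => hK)
      (fun t _ => (h1 (γ 0) t).continuousAt.continuousWithinAt)
      (fun t _ => (h1 (γ 0) t).hasDerivWithinAt)
      (fun t ht => (hγ t ht).continuousAt.continuousWithinAt)
      (fun t ht => (hγ t ⟨ht.1, ht.2.le⟩).hasDerivWithinAt) (h0 (γ 0))
    exact this ⟨zero_le_one, le_rfl⟩
  · intro x hx t
    have := ODE_solution_unique_univ (v := fun _ => X) (K := K) (s := fun _ => univ) (t₀ := 0)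
      (f := fun t => g x t) (g := fun _ => x) (fun _ => hK.lipschitzOnWith)
      (fun t => ⟨h1 x t, trivial⟩)
      (fun t => ⟨by simpa [hx] using hasDerivAt_const t x, trivial⟩) (h0 x)
    exact congrFun this t

/-- smooth cutoff function -/
theorem exists_cutoff [FiniteDimensional ℝ E] {K U : Set E} (hK : IsCompact K) (hU : IsOpen U)
    (hKU : K ⊆ U) : ∃ χ : E → ℝ, ContDiff ℝ ∞ χ ∧ (∀ᶠ x in 𝓝ˢ K, χ x = 1) ∧
      ∃ L, IsCompact L ∧ L ⊆ U ∧ ∀ x ∉ L, χ x = 0 := by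
  have : ProperSpace E := FiniteDimensional.proper_real E
  obtain ⟨L, hL, hKL, hLU⟩ := exists_compact_between hK hU hKU
  obtain ⟨f, hf1, hf0, -⟩ := exists_contMDiffMap_one_nhds_of_subset_interior (n := (⊤ : ℕ∞)) 𝓘(ℝ, E)
    hK.isClosed hKL
  exact ⟨f, contMDiff_iff_contDiff.1 f.contMDiff, hf1, L, hL, hLU, hf0⟩

variable {N : Set E} {Ω : E → E →L[ℝ] E →L[ℝ] ℝ}

/-- flows of compactly supported autonomous Hamiltonians -/
theorem HF.of_vf [CompleteSpace E] {H : E → ℝ} {X : E → E} (hH : ContDiff ℝ ∞ H)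
    (hX : ContDiff ℝ ∞ X) (hHX : ∀ x v, Ω x (X x) v = fderiv ℝ H x v) {L : Set E}
    (hL : IsCompact L) (hLN : L ⊆ N) (hX0 : ∀ x ∉ L, X x = 0) (hH0 : ∀ x ∉ L, H x = 0) :
    ∃ G : ℝ → E → E, HF N Ω (fun _ => H) G (fun t => G (-t)) ∧
      Cpt N (fun _ => H) G ∧
      (∀ γ : ℝ → E, (∀ t ∈ Icc (0:ℝ) 1, HasDerivAt γ (X (γ t)) t) → G 1 (γ 0) = γ 1) ∧
      (∀ x, X x = 0 → ∀ t, G t x = x) := by
  have hc : HasCompactSupport X := HasCompactSupport.intro hL hX0
  obtain ⟨G, g1, g2, g3, g4, g5, g6⟩ := exists_flow X hX hc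
  have inv1 : ∀ t x, G (-t) (G t x) = x := fun t x => by rw [← g3]; simp [g2]
  have inv2 : ∀ t x, G t (G (-t) x) = x := fun t x => by rw [← g3]; simp [g2]
  have fixL : ∀ x ∉ L, ∀ t, G t x = x := fun x hx t => g6 x (hX0 x hx) t
  have maps : ∀ t x, x ∈ N → G t x ∈ N := by
    intro t x hx
    by_contra h
    have h1 : G t x ∉ L := fun h' => h (hLN h')
    have h2 := fixL _ h1 (-t)
    rw [inv1] at h2
    rw [← h2] at h
    exact h hx
  refine ⟨G, ⟨hH.comp contDiff_snd, g1, ?_, inv1, inv2, g2, maps, fun t => maps (-t), ?_⟩,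
    ⟨L, hL, hLN, fun t x hx => ⟨hH0 x hx, fixL x hx t⟩⟩, g5, g6⟩
  · exact g1.comp ((contDiff_neg.comp contDiff_fst).prodMk contDiff_snd)
  · intro t x _ v
    rw [(g4 x t).deriv]
    exact hHX _ _

end Pool.Agent.D0H86.Flux
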